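import Pool.Agent.Q166.PD.Img
import Pool.Agent.Results.MP_fe58d8_pr.UniformDimension

/-!
Regularity of the limits of the exploration path.
-/

set_option autoImplicit false

namespace Pool.Agent.Q166.PD

open H984N MeasureTheory Filter Topology

theorem reg_ae (R : Rect) :
    (∀ δ : ℕ → ℝ, (∀ i, 0 < δ i) → Tendsto δ atTop (𝓝 0) →
      ∃ φ : ℕ → ℕ, StrictMono φ ∧ ∃ μ : ProbabilityMeasure X,
        Tendsto (fun i => R.law (δ (φ i))) atTop (𝓝 μ)) ∧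
    ∀ δ : ℕ → ℝ, (∀ i, 0 < δ i) → Tendsto δ atTop (𝓝 0) → ∀ μ : ProbabilityMeasure X,
      Tendsto (fun i => R.law (δ i)) atTop (𝓝 μ) → ∀ᵐ p ∂(μ : Measure X), Reg p.1 := by
  obtain ⟨⟨c, hc, hL⟩, ⟨C, hC, hU⟩, C2, hC2, hA⟩ :=
    Pool.Agent.Results.MP_fe58d8_pr.UniformDimension.inputs
  obtain ⟨h1, h2, h3⟩ := final_of hc hC hL hU hC2 hA R
  refine ⟨h2, fun δ hδ hlim μ hμ => ?_⟩
  have hT : ∀ ε : ℝ, 0 < ε → ∃ Λ δ0 : ℝ, 0 < Λ ∧ 0 < δ0 ∧ ∀ δ : ℝ, 0 < δ → δ ≤ δ0 →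
      1 - ε ≤ R.prob δ (fun F => 1 / Λ ≤ R.time δ F) := by
    intro ε hε
    obtain ⟨Λ, δ0, hΛ, hδ0, h⟩ := h1 (1/2) ε (by norm_num) (by norm_num) hε
    refine ⟨Λ, δ0, hΛ, hδ0, fun δ hδ hδ' => (h δ hδ hδ').trans ?_⟩
    exact Exist_prob_mono R δ fun F _ hF => hF.1.1
  filter_upwards [h3 δ hδ hlim μ hμ,
    H443P.limit_occ_all R hδ hlim hμ hC hU H443U.Sum.t hT] with p hp ho
  obtain ⟨-, -, -, -, g5, -⟩ := hp
  exact ⟨g5, ho⟩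

end Pool.Agent.Q166.PD
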