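import Pool.Agent.Q166.PD.Dim

/-!
The Assouad spectrum of the images of all sets of times.
-/

set_option autoImplicit false

open MeasureTheory Filter Topology
open scoped ENNReal NNReal

namespace Pool.Agent.Q166.PD

open Pool.Agent.Q166.PT

/-- the maximal number of closed balls of radius `R ^ (1 / θ)` which are necessary to cover the
part of `A` in a closed ball of radius `R` centred in `A` -/
noncomputable def lcov {α : Type*} [PseudoMetricSpace α] (θ : ℝ) (A : Set α) (R : ℝ) : ℝ≥0∞ :=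
  ⨆ x ∈ A, cov (A ∩ Metric.closedBall x R) (R ^ (1 / θ))

/-- the Assouad spectrum -/
noncomputable def aspec {α : Type*} [PseudoMetricSpace α] (θ : ℝ) (A : Set α) : ℝ≥0∞ :=
  ⨅ (s : ℝ≥0) (_ : ∀ᶠ R : ℝ in 𝓝[>] 0, ∀ x ∈ A, cov (A ∩ Metric.closedBall x R) (R ^ (1 / θ)) ≤
    ENNReal.ofReal ((R / R ^ (1 / θ)) ^ (s : ℝ))), (s : ℝ≥0∞)

theorem aspec_eq {α : Type*} [PseudoMetricSpace α] {θ : ℝ} (h0 : 0 < θ) (h1 : θ < 1)
    (A : Set α) : ENNReal.ofReal (1 / θ - 1) * aspec θ A = ud (lcov θ A) := by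
  have hg : 0 < 1 / θ - 1 := by
    rw [sub_pos, lt_div_iff₀ h0]
    linarith
  have hg0 : ENNReal.ofReal (1 / θ - 1) ≠ 0 := by
    rw [Ne, ENNReal.ofReal_eq_zero, not_le]
    exact hg
  have key : ∀ (s : ℝ) (R : ℝ), 0 < R →
      ((∀ x ∈ A, cov (A ∩ Metric.closedBall x R) (R ^ (1 / θ)) ≤
        ENNReal.ofReal ((R / R ^ (1 / θ)) ^ s)) ↔
        lcov θ A R ≤ ENNReal.ofReal (R ^ (-((1 / θ - 1) * s)))) := by
    intro s R hR
    have e : (R / R ^ (1 / θ)) ^ s = R ^ (-((1 / θ - 1) * s)) := by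
      have e1 : R / R ^ (1 / θ) = R ^ (1 - 1 / θ) := by
        rw [Real.rpow_sub hR, Real.rpow_one]
      rw [e1, ← Real.rpow_mul hR.le]
      congr 1
      ring
    rw [e]
    unfold lcov
    exact iSup₂_le_iff.symm
  apply le_antisymm
  · refine le_iInf₂ fun s hs => ?_
    have h2 : aspec θ A ≤ ((s / (1 / θ - 1).toNNReal : ℝ≥0) : ℝ≥0∞) := by
      refine iInf₂_le _ ?_
      filter_upwards [hs, self_mem_nhdsWithin] with R g1 g2
      rw [key _ R g2]
      refine g1.trans (le_of_eq ?_)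
      rw [NNReal.coe_div, Real.coe_toNNReal _ hg.le, mul_div_cancel₀ _ hg.ne']
    calc ENNReal.ofReal (1 / θ - 1) * aspec θ A
        ≤ ENNReal.ofReal (1 / θ - 1) * ((s / (1 / θ - 1).toNNReal : ℝ≥0) : ℝ≥0∞) := by gcongr
      _ = s := by
        rw [ENNReal.ofReal, ← ENNReal.coe_mul, mul_div_cancel₀]
        rw [Ne, Real.toNNReal_eq_zero, not_le]
        exact hg
  · unfold aspec
    rw [ENNReal.mul_iInf_of_ne hg0 ENNReal.ofReal_ne_top]
    refine le_iInf fun s => ?_
    rw [ENNReal.mul_iInf_of_ne hg0 ENNReal.ofReal_ne_top]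
    refine le_iInf fun hs => ?_
    have h2 : ud (lcov θ A) ≤ (((1 / θ - 1).toNNReal * s : ℝ≥0) : ℝ≥0∞) := by
      refine iInf₂_le _ ?_
      filter_upwards [hs, self_mem_nhdsWithin] with R g1 g2
      rw [key _ R g2] at g1
      rw [NNReal.coe_mul, Real.coe_toNNReal _ hg.le]
      exact g1
    refine h2.trans (le_of_eq ?_)
    rw [ENNReal.coe_mul, ENNReal.ofReal]

theorem cov_biUnion {α ι : Type*} [PseudoMetricSpace α] (T : Finset ι) (B : ι → Set α) {A : Set α}
    (h : A ⊆ ⋃ i ∈ T, B i) {r : ℝ} (hr : 0 ≤ r) {N : ℝ≥0∞} (hN : ∀ i ∈ T, cov (B i) r ≤ N) :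
    cov A r ≤ T.card * N := by
  classical
  choose C hC1 hC2 using fun i => ex_cov (B i) hr
  have h1 : cov A r ≤ ((⋃ i ∈ T, C i).encard : ℝ≥0∞) := by
    refine cov_le_card ?_
    intro x hx
    have h2 := h hx
    rw [Set.mem_iUnion₂] at h2
    obtain ⟨i, hi, hxi⟩ := h2
    obtain ⟨c, hc, h3⟩ := hC1 i x hxi
    exact ⟨c, Set.mem_iUnion₂.2 ⟨i, hi, hc⟩, h3⟩
  refine h1.trans ?_
  have h2 : ∀ S : Finset ι, S ⊆ T → ((⋃ i ∈ S, C i).encard : ℝ≥0∞) ≤ S.card * N := by
    intro S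
    induction S using Finset.induction_on with
    | empty => intro _; simp
    | insert a S ha ih =>
      intro hS
      rw [Finset.set_biUnion_insert, Finset.card_insert_of_notMem ha]
      have h3 : ((C a ∪ ⋃ i ∈ S, C i).encard : ℝ≥0∞) ≤
          ((C a).encard : ℝ≥0∞) + ((⋃ i ∈ S, C i).encard : ℝ≥0∞) := by
        exact_mod_cast Set.encard_union_le _ _
      refine h3.trans ?_
      have h4 : ((C a).encard : ℝ≥0∞) ≤ N := by
        rw [← hC2]
        exact hN a (hS (Finset.mem_insert_self _ _))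
      have h5 := ih (fun i hi => hS (Finset.mem_insert_of_mem hi))
      push_cast
      rw [add_mul, one_mul, add_comm]
      exact add_le_add h5 h4
  exact h2 T subset_rfl

/-- Image. -/
theorem lcmp_image {f : C(unitInterval, ℂ)} (h : Reg f) {θ : ℝ} (h0 : 0 < θ)
    (E : Set unitInterval) : Cmp (lcov θ (f '' E)) (lcov θ E) (7/4) := by
  intro c η hc hη
  have hc0 : 0 < c := by linarith
  -- exponents `β < β' < 4/7`
  obtain ⟨ε, hε⟩ : ∃ ε : ℝ, ε = min (min (1/2) (η/8)) ((4/7 - 1/c) / 2) := ⟨_, rfl⟩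
  have hβc : 1 / c < 4 / 7 := by
    rw [div_lt_iff₀ hc0]
    linarith
  have e0 : 0 < ε := by
    rw [hε]
    exact lt_min (lt_min (by norm_num) (by linarith)) (by linarith)
  have e1 : ε ≤ 1/2 := by rw [hε]; exact (min_le_left _ _).trans (min_le_left _ _)
  have e2 : ε ≤ η/8 := by rw [hε]; exact (min_le_left _ _).trans (min_le_right _ _)
  have e3 : ε ≤ (4/7 - 1/c) / 2 := by rw [hε]; exact min_le_right _ _
  obtain ⟨β, hβ⟩ : ∃ β : ℝ, β = 4/7 * (1 - ε) := ⟨_, rfl⟩
  obtain ⟨β', hβ'⟩ : ∃ β' : ℝ, β' = 4/7 * (1 - ε / 2) := ⟨_, rfl⟩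
  obtain ⟨α, hα⟩ : ∃ α : ℝ, α = 7/4 * (1 - ε) := ⟨_, rfl⟩
  have b0 : 0 < β := by rw [hβ]; linarith
  have b1 : β < 4/7 := by rw [hβ]; linarith
  have bb : β < β' := by rw [hβ, hβ']; linarith
  have b1' : β' < 4/7 := by rw [hβ']; linarith
  have a0 : 0 < α := by rw [hα]; linarith
  have a1 : α < 7/4 := by rw [hα]; linarith
  have bq : 2/7 ≤ β := by rw [hβ]; linarith
  have hbc : 1 / β ≤ c := by
    rw [div_le_iff₀ b0]
    have h1 : 1 / c ≤ β := by rw [hβ]; linarith
    rw [div_le_iff₀ hc0] at h1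
    linarith
  have hab : α * β ≤ 1 := by rw [hα, hβ]; nlinarith
  have hab2 : 1 - α * β ≤ 2 * ε := by rw [hα, hβ]; nlinarith
  obtain ⟨K, hK, hh⟩ := h.hol b0 b1
  obtain ⟨K', hK', hh'⟩ := h.hol (b0.trans bb) b1'
  obtain ⟨Λ, hΛ, ho⟩ := h.2 α a0 a1
  refine ⟨(1 / 2) ^ β, β, 2 * Λ * (K + 2) ^ α * ((1 / 2) ^ β) ^ (α - 1 / β), 1 - α * β,
    by positivity, b0, by positivity, by linarith, hbc, ?_, ?_⟩
  · rw [div_le_iff₀ b0]
    nlinarith
  · -- `K' h ^ (β' / θ) ≤ ((h / 2) ^ β) ^ (1 / θ)` for small `h`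
    have hT : ∀ᶠ r : ℝ in 𝓝[>] 0,
        (K' / ((1 / 2) ^ β) ^ (1 / θ)) * r ^ ((β' - β) / θ) < 1 :=
      ((tend_pow (K := K' / ((1 / 2) ^ β) ^ (1 / θ)) (b := (β' - β) / θ) (by positivity)
        (div_pos (by linarith) h0)).mono_right nhdsWithin_le_nhds).eventually
          (gt_mem_nhds zero_lt_one)
    filter_upwards [hT, Ioo_mem_nhdsGT (zero_lt_one' ℝ)] with r g1 g2
    obtain ⟨hr, hr1⟩ := g2
    obtain ⟨ρ, hρ⟩ : ∃ ρ : ℝ, ρ = (1 / 2) ^ β * r ^ β := ⟨_, rfl⟩
    have hρ0 : 0 < ρ := by rw [hρ]; positivity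
    have hρe : ρ = (r / 2) ^ β := by
      rw [hρ, ← Real.mul_rpow (by norm_num) hr.le]
      congr 1
      ring
    have hρ1 : ρ ≤ 1 := by
      rw [hρe]
      exact Real.rpow_le_one (by positivity) (by linarith) b0.le
    have hρb : ρ ^ (1 / β) = r / 2 := by
      rw [hρe, ← Real.rpow_mul (by positivity), mul_one_div_cancel b0.ne', Real.rpow_one]
    have hrad : K' * (r ^ (1 / θ)) ^ β' ≤ ρ ^ (1 / θ) := by
      rw [← Real.rpow_mul hr.le, hρ, Real.mul_rpow (by positivity) (by positivity),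
        ← Real.rpow_mul hr.le]
      have h5 : r ^ (1 / θ * β') = r ^ ((β' - β) / θ) * r ^ (β * (1 / θ)) := by
        rw [← Real.rpow_add hr]
        congr 1
        ring
      rw [h5]
      have hp : 0 < ((1 / 2 : ℝ) ^ β) ^ (1 / θ) := by positivity
      have h6 : K' * r ^ ((β' - β) / θ) ≤ ((1 / 2 : ℝ) ^ β) ^ (1 / θ) := by
        have : K' / ((1 / 2 : ℝ) ^ β) ^ (1 / θ) * r ^ ((β' - β) / θ) =
            (K' * r ^ ((β' - β) / θ)) / ((1 / 2 : ℝ) ^ β) ^ (1 / θ) := by ring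
        rw [this, div_lt_one hp] at g1
        exact g1.le
      calc K' * (r ^ ((β' - β) / θ) * r ^ (β * (1 / θ)))
          = (K' * r ^ ((β' - β) / θ)) * r ^ (β * (1 / θ)) := by ring
        _ ≤ _ := mul_le_mul_of_nonneg_right h6 (by positivity)
    rw [← hρ]
    unfold lcov
    refine iSup₂_le ?_
    rintro _ ⟨t0, ht0, rfl⟩
    obtain ⟨T, hT1, hT2⟩ := few_times hK b0 hh hΛ ho (f t0) hρ0 hρ1
    rw [hρb] at hT1
    have hsub : f '' E ∩ Metric.closedBall (f t0) ρ ⊆
        ⋃ τ ∈ T, f '' (E ∩ Metric.closedBall τ (r / 2)) := by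
      rintro _ ⟨⟨s, hs, rfl⟩, hs2⟩
      obtain ⟨τ, hτ, h7⟩ := hT1 s hs2
      exact Set.mem_iUnion₂.2 ⟨τ, hτ, s, ⟨hs, h7⟩, rfl⟩
    refine (cov_biUnion T _ hsub (by positivity) (N := ⨆ x ∈ E,
      cov (E ∩ Metric.closedBall x r) (r ^ (1 / θ))) ?_).trans ?_
    · intro τ _
      rcases (E ∩ Metric.closedBall τ (r / 2)).eq_empty_or_nonempty with h8 | ⟨s, hs1, hs2⟩
      · rw [h8, Set.image_empty]
        have : cov (∅ : Set ℂ) (ρ ^ (1 / θ)) ≤ ((∅ : Set ℂ).encard : ℝ≥0∞) :=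
          cov_le_card (fun x hx => absurd hx (Set.notMem_empty x))
        refine this.trans ?_
        simp
      · refine le_trans ?_ (le_iSup₂ (f := fun (x : unitInterval) (_ : x ∈ E) =>
          cov (E ∩ Metric.closedBall x r) (r ^ (1 / θ))) s hs1)
        have h9 : E ∩ Metric.closedBall τ (r / 2) ⊆ E ∩ Metric.closedBall s r := by
          rintro w ⟨hw1, hw2⟩
          refine ⟨hw1, ?_⟩
          rw [Metric.mem_closedBall] at hw2 hs2 ⊢
          calc dist w s ≤ dist w τ + dist s τ := dist_triangle_right _ _ _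
            _ ≤ r := by linarith
        refine le_trans ?_ (cov_mono h9 _)
        refine le_trans ?_ (cov_image hK'.le (b0.trans bb) hh' _ (by positivity))
        -- monotonicity in the radius
        obtain ⟨C, hC1, hC2⟩ := ex_cov (f '' (E ∩ Metric.closedBall τ (r / 2)))
          (show 0 ≤ K' * (r ^ (1 / θ)) ^ β' by positivity)
        rw [hC2]
        refine cov_le_card fun x hx => ?_
        obtain ⟨c', hc', h10⟩ := hC1 x hx
        exact ⟨c', hc', h10.trans hrad⟩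
    · gcongr
      rw [← ENNReal.ofReal_natCast]
      apply ENNReal.ofReal_le_ofReal
      refine hT2.trans (le_of_eq ?_)
      rw [hρ, Real.mul_rpow (by positivity) (by positivity), ← Real.rpow_mul hr.le]
      have : β * (α - 1 / β) = -(1 - α * β) := by field_simp; ring
      rw [this]
      ring

/-- Times. -/
theorem lcmp_times {f : C(unitInterval, ℂ)} (h : Reg f) {θ : ℝ} (h0 : 0 < θ)
    (E : Set unitInterval) : Cmp (lcov θ E) (lcov θ (f '' E)) (4/7) := by
  intro c η hc hη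
  obtain ⟨ε, hε⟩ : ∃ ε : ℝ, ε = min (1/2) (η * θ / 2) := ⟨_, rfl⟩
  have e0 : 0 < ε := by rw [hε]; exact lt_min (by norm_num) (by positivity)
  have e1 : ε ≤ 1/2 := by rw [hε]; exact min_le_left _ _
  have e2 : ε ≤ η * θ / 2 := by rw [hε]; exact min_le_right _ _
  obtain ⟨β, hβ⟩ : ∃ β : ℝ, β = 4/7 * (1 - ε) := ⟨_, rfl⟩
  obtain ⟨β', hβ'⟩ : ∃ β' : ℝ, β' = 4/7 * (1 - ε / 2) := ⟨_, rfl⟩
  obtain ⟨α, hα⟩ : ∃ α : ℝ, α = 7/4 * (1 - ε) := ⟨_, rfl⟩
  have b0 : 0 < β := by rw [hβ]; linarith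
  have b1 : β < 4/7 := by rw [hβ]; linarith
  have bb : β < β' := by rw [hβ, hβ']; linarith
  have b1' : β' < 4/7 := by rw [hβ']; linarith
  have a0 : 0 < α := by rw [hα]; linarith
  have a1 : α < 7/4 := by rw [hα]; linarith
  have hab : α ≤ 1 / β := by
    rw [le_div_iff₀ b0, hα, hβ]
    nlinarith
  obtain ⟨K, hK, hh⟩ := h.hol b0 b1
  obtain ⟨K', hK', hh'⟩ := h.hol (b0.trans bb) b1'
  obtain ⟨Λ, hΛ, ho⟩ := h.2 α a0 a1
  refine ⟨1, 1 / β, 2 * Λ * (K + 2) ^ α, (1 / β - α) / θ, one_pos, by positivity, by positivity,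
    div_nonneg (by linarith) h0.le, ?_, ?_, ?_⟩
  · rw [one_div_one_div]
    linarith
  · rw [div_div_eq_mul_div, div_one, div_mul_eq_mul_div, div_le_iff₀ h0, sub_mul,
      one_div_mul_cancel b0.ne', hα, hβ]
    nlinarith
  · have hT : ∀ᶠ r : ℝ in 𝓝[>] 0, K' * r ^ ((β' - β) / β) < 1 :=
      ((tend_pow (K := K') (b := (β' - β) / β) hK'
        (div_pos (by linarith) b0)).mono_right nhdsWithin_le_nhds).eventually
          (gt_mem_nhds zero_lt_one)
    filter_upwards [hT, Ioo_mem_nhdsGT (zero_lt_one' ℝ)] with R g1 g2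
    obtain ⟨hR, hR1⟩ := g2
    have hrad : K' * (R ^ (1 / β)) ^ β' ≤ R := by
      rw [← Real.rpow_mul hR.le]
      have h5 : R ^ (1 / β * β') = R ^ ((β' - β) / β) * R := by
        rw [← Real.rpow_add_one hR.ne']
        congr 1
        field_simp
        ring
      rw [h5, ← mul_assoc]
      nlinarith
    have hRθ1 : R ^ (1 / θ) ≤ 1 := Real.rpow_le_one hR.le hR1.le (by positivity)
    rw [one_mul]
    have hlc : lcov θ E (R ^ (1 / β)) = ⨆ x ∈ E, cov (E ∩ Metric.closedBall x (R ^ (1 / β)))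
        ((R ^ (1 / β)) ^ (1 / θ)) := rfl
    rw [hlc]
    refine iSup₂_le fun t ht => ?_
    have e5 : (R ^ (1 / β)) ^ (1 / θ) = (R ^ (1 / θ)) ^ (1 / β) := by
      rw [← Real.rpow_mul hR.le, ← Real.rpow_mul hR.le, mul_comm]
    rw [e5]
    refine (cov_times hK b0 hh hΛ ho _ (by positivity) hRθ1).trans ?_
    have e6 : 2 * Λ * (K + 2) ^ α * (R ^ (1 / θ)) ^ (α - 1 / β) =
        2 * Λ * (K + 2) ^ α * R ^ (-((1 / β - α) / θ)) := by
      rw [← Real.rpow_mul hR.le]
      congr 2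
      ring
    rw [e6]
    refine mul_le_mul_right ?_ _
    have hsub : f '' (E ∩ Metric.closedBall t (R ^ (1 / β))) ⊆
        f '' E ∩ Metric.closedBall (f t) R := by
      rintro _ ⟨s, ⟨hs1, hs2⟩, rfl⟩
      refine ⟨⟨s, hs1, rfl⟩, ?_⟩
      rw [Metric.mem_closedBall] at hs2 ⊢
      refine (hh' s t).trans (le_trans ?_ hrad)
      refine mul_le_mul_of_nonneg_left ?_ hK'.le
      exact Real.rpow_le_rpow (abs_nonneg _) hs2 (b0.trans bb).le
    exact (cov_mono hsub _).trans (le_iSup₂ (f := fun (x : ℂ) (_ : x ∈ f '' E) =>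
      cov (f '' E ∩ Metric.closedBall x R) (R ^ (1 / θ))) (f t) ⟨t, ht, rfl⟩)

theorem aspec_image {f : C(unitInterval, ℂ)} (h : Reg f) {θ : ℝ} (h0 : 0 < θ) (h1 : θ < 1)
    (E : Set unitInterval) : aspec θ (f '' E) = 7 / 4 * aspec θ E := by
  have hg : 0 < 1 / θ - 1 := by
    rw [sub_pos, lt_div_iff₀ h0]
    linarith
  have hg0 : ENNReal.ofReal (1 / θ - 1) ≠ 0 := by
    rw [Ne, ENNReal.ofReal_eq_zero, not_le]
    exact hg
  have h2 := eq_of (ud_le (by norm_num) (lcmp_image h h0 E)) (ud_le (by norm_num)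
    (lcmp_times h h0 E))
  rw [← aspec_eq h0 h1, ← aspec_eq h0 h1, mul_left_comm] at h2
  exact (ENNReal.mul_right_inj hg0 ENNReal.ofReal_ne_top).1 h2

/-- Sets of times of positive measure. -/
theorem aspec_one {θ : ℝ} (h0 : 0 < θ) (h1 : θ < 1) {E : Set unitInterval}
    (hE : volume E ≠ 0) : aspec θ E = 1 := by
  have hg : 0 < 1 / θ - 1 := by
    rw [sub_pos, lt_div_iff₀ h0]
    linarith
  apply le_antisymm
  · refine le_of_forall_gt_imp_ge_of_dense fun a ha => ?_
    rcases eq_or_ne a ⊤ with rfl | hat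
    · exact le_top
    lift a to ℝ≥0 using hat with s
    have hs : 1 < (s : ℝ) := by exact_mod_cast ha
    refine iInf₂_le s ?_
    have hex : 0 < (1 / θ - 1) * ((s : ℝ) - 1) := mul_pos hg (by linarith)
    have hev : ∀ᶠ r : ℝ in 𝓝[>] 0, 8 * r ^ ((1 / θ - 1) * ((s : ℝ) - 1)) < 1 :=
      ((tend_pow (K := 8) (by norm_num) hex).mono_right
        nhdsWithin_le_nhds).eventually (gt_mem_nhds zero_lt_one)
    filter_upwards [hev, Ioo_mem_nhdsGT (zero_lt_one' ℝ)] with R g1 g2 x _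
    obtain ⟨hR, hR1⟩ := g2
    obtain ⟨r, hr⟩ : ∃ r : ℝ, r = R ^ (1 / θ) := ⟨_, rfl⟩
    have hr0 : 0 < r := by rw [hr]; positivity
    have hrR : r ≤ R := by
      rw [hr]
      calc R ^ (1 / θ) ≤ R ^ (1 : ℝ) :=
            Real.rpow_le_rpow_of_exponent_ge hR hR1.le (by linarith)
        _ = R := Real.rpow_one R
    rw [← hr]
    -- a cover by a grid
    obtain ⟨M, hMd⟩ : ∃ M : ℕ, M = ⌈2 * R / r⌉₊ := ⟨_, rfl⟩
    have hM1 : 2 * R / r ≤ M := by rw [hMd]; exact Nat.le_ceil _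
    have hM2 : (M : ℝ) < 2 * R / r + 1 := by
      rw [hMd]
      exact Nat.ceil_lt_add_one (by positivity)
    have hcovE : cov (E ∩ Metric.closedBall x R) r ≤
        (((Finset.range (M + 1)).image (fun k : ℕ => Set.projIcc (0 : ℝ) 1 zero_le_one
          ((x : ℝ) - R + k * r)) : Finset unitInterval) : Set unitInterval).encard := by
      refine cov_le_card fun y hy => ?_
      have hy2 := hy.2
      rw [Metric.mem_closedBall, Subtype.dist_eq, Real.dist_eq, abs_le] at hy2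
      obtain ⟨k, hk⟩ : ∃ k : ℕ, k = ⌊((y : ℝ) - x + R) / r⌋₊ := ⟨_, rfl⟩
      have k1 : (k : ℝ) ≤ ((y : ℝ) - x + R) / r := by
        rw [hk]
        exact Nat.floor_le (div_nonneg (by linarith) hr0.le)
      have k2 : ((y : ℝ) - x + R) / r < k + 1 := by rw [hk]; exact Nat.lt_floor_add_one _
      rw [le_div_iff₀ hr0] at k1
      rw [div_lt_iff₀ hr0] at k2
      have k3 : (k : ℝ) ≤ M := by
        refine le_trans ?_ hM1
        rw [le_div_iff₀ hr0]
        linarith
      have k4 : k ≤ M := by exact_mod_cast k3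
      refine ⟨_, Finset.mem_coe.2 (Finset.mem_image_of_mem _ (Finset.mem_range.2
        (Nat.lt_succ_of_le k4))), ?_⟩
      have hy0 := y.2.1
      have hy1 := y.2.2
      rw [Subtype.dist_eq, Real.dist_eq, Set.coe_projIcc, abs_le]
      rcases le_total (1 : ℝ) ((x : ℝ) - R + k * r) with g | g
      · rw [min_eq_left g, max_eq_right zero_le_one]
        constructor <;> linarith
      · rw [min_eq_right g]
        rcases le_total (0 : ℝ) ((x : ℝ) - R + k * r) with g' | g'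
        · rw [max_eq_right g']
          constructor <;> linarith
        · rw [max_eq_left g']
          constructor <;> linarith
    refine hcovE.trans ?_
    rw [Set.encard_coe_eq_coe_finsetCard]
    have h4 : (((Finset.range (M + 1)).image (fun k : ℕ => Set.projIcc (0 : ℝ) 1 zero_le_one
        ((x : ℝ) - R + k * r))).card : ℝ) ≤ (R / r) ^ (s : ℝ) := by
      have h5 := Finset.card_image_le (s := Finset.range (M + 1))
        (f := fun k : ℕ => Set.projIcc (0 : ℝ) 1 zero_le_one ((x : ℝ) - R + k * r))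
      rw [Finset.card_range] at h5
      have h6 : (((Finset.range (M + 1)).image (fun k : ℕ => Set.projIcc (0 : ℝ) 1 zero_le_one
        ((x : ℝ) - R + k * r))).card : ℝ) ≤ (M : ℝ) + 1 := by exact_mod_cast h5
      have hRr : 1 ≤ R / r := by rw [le_div_iff₀ hr0]; linarith
      refine h6.trans ?_
      have h7 : (M : ℝ) + 1 ≤ 8 * (R / r) := by
        have : 2 * R / r = 2 * (R / r) := by ring
        linarith
      refine h7.trans ?_
      have hRr0 : 0 < R / r := by positivity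
      have h8 : R ^ ((1 / θ - 1) * ((s : ℝ) - 1)) * (R / r) ^ ((s : ℝ) - 1) = 1 := by
        rw [Real.rpow_mul hR.le, ← Real.mul_rpow (by positivity) hRr0.le]
        have : R ^ (1 / θ - 1) * (R / r) = 1 := by
          rw [Real.rpow_sub_one hR.ne', ← hr]
          field_simp
        rw [this, Real.one_rpow]
      have h9 : (R / r) ^ (s : ℝ) = (R / r) ^ ((s : ℝ) - 1) * (R / r) := by
        rw [Real.rpow_sub_one hRr0.ne', div_mul_cancel₀ _ hRr0.ne']
      rw [h9]
      refine mul_le_mul_of_nonneg_right ?_ hRr0.le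
      have h10 : 0 < (R / r) ^ ((s : ℝ) - 1) := by positivity
      calc (8 : ℝ) = 8 * (R ^ ((1 / θ - 1) * ((s : ℝ) - 1)) * (R / r) ^ ((s : ℝ) - 1)) := by
            rw [h8, mul_one]
        _ = (8 * R ^ ((1 / θ - 1) * ((s : ℝ) - 1))) * (R / r) ^ ((s : ℝ) - 1) := by ring
        _ ≤ 1 * (R / r) ^ ((s : ℝ) - 1) := mul_le_mul_of_nonneg_right g1.le h10.le
        _ = _ := one_mul _
    have h6 := ENNReal.ofReal_le_ofReal h4
    rw [ENNReal.ofReal_natCast] at h6
    simpa using h6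
  · refine le_iInf₂ fun s hs => ?_
    by_contra hcon
    push Not at hcon
    have hs1 : (s : ℝ) < 1 := by exact_mod_cast hcon
    have hpos : 0 < (volume E).toReal := ENNReal.toReal_pos hE (measure_ne_top _ _)
    have hex : 0 < (1 / θ - 1) * (1 - (s : ℝ)) := mul_pos hg (by linarith)
    have hev : ∀ᶠ r : ℝ in 𝓝[>] 0, 4 * r ^ ((1 / θ - 1) * (1 - (s : ℝ))) < (volume E).toReal :=
      ((tend_pow (K := 4) (by norm_num) hex).mono_right
        nhdsWithin_le_nhds).eventually (gt_mem_nhds hpos)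
    obtain ⟨R, ⟨g1, g2⟩, hR, hR1⟩ := ((hs.and hev).and (Ioo_mem_nhdsGT (zero_lt_one' ℝ))).exists
    obtain ⟨r, hr⟩ : ∃ r : ℝ, r = R ^ (1 / θ) := ⟨_, rfl⟩
    have hr0 : 0 < r := by rw [hr]; positivity
    -- measures of small pieces
    have hpiece : ∀ A : Set unitInterval, ∀ N : ℝ, 0 ≤ N → cov A r ≤ ENNReal.ofReal N →
        volume A ≤ ENNReal.ofReal (N * (2 * r)) := by
      intro A N hN hA
      obtain ⟨C, hC, h4⟩ := ex_cov A hr0.le
      rw [h4] at hA
      have hfin : C.Finite := by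
        by_contra hinf
        have : C.encard = ⊤ := by
          rw [Set.encard_eq_top_iff]
          exact hinf
        rw [this] at hA
        simp at hA
      have h5 : A ⊆ ⋃ c ∈ hfin.toFinset, Metric.closedBall c r := by
        intro y hy
        obtain ⟨c, hc, h6⟩ := hC y hy
        exact Set.mem_iUnion₂.2 ⟨c, hfin.mem_toFinset.2 hc, h6⟩
      have hball : ∀ c : unitInterval, volume (Metric.closedBall c r) ≤
          ENNReal.ofReal (2 * r) := by
        intro c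
        rw [vol_I]
        have h6 : (fun w : unitInterval => (w : ℝ)) '' Metric.closedBall c r ⊆
            Set.Icc ((c : ℝ) - r) (c + r) := by
          rintro _ ⟨w, hw, rfl⟩
          rw [Metric.mem_closedBall, Subtype.dist_eq, Real.dist_eq, abs_le] at hw
          constructor <;> linarith [hw.1, hw.2]
        refine (measure_mono h6).trans ?_
        rw [Real.volume_Icc]
        apply ENNReal.ofReal_le_ofReal
        linarith
      have h6 := (measure_mono (μ := volume) h5).trans (measure_biUnion_finset_le _ _)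
      have h7 : ∑ c ∈ hfin.toFinset, volume (Metric.closedBall c r) ≤
          (hfin.toFinset.card : ℝ≥0∞) * ENNReal.ofReal (2 * r) := by
        refine (Finset.sum_le_sum fun c _ => hball c).trans ?_
        rw [Finset.sum_const, nsmul_eq_mul]
      rw [hfin.encard_eq_coe_toFinset_card] at hA
      have h8 : (hfin.toFinset.card : ℝ≥0∞) ≤ ENNReal.ofReal N := by simpa using hA
      rw [ENNReal.ofReal_mul hN]
      exact h6.trans (h7.trans (by gcongr))
    -- grid of mesh `R`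
    obtain ⟨M, hMd⟩ : ∃ M : ℕ, M = ⌈1 / R⌉₊ := ⟨_, rfl⟩
    have hM1 : 1 / R ≤ M := by rw [hMd]; exact Nat.le_ceil _
    have hM2 : (M : ℝ) < 1 / R + 1 := by
      rw [hMd]
      exact Nat.ceil_lt_add_one (by positivity)
    have hM0 : (0 : ℝ) < M := lt_of_lt_of_le (by positivity) hM1
    have hM : 0 < M := by exact_mod_cast hM0
    have hMh : 1 / (M : ℝ) ≤ R := by
      rw [div_le_iff₀ hM0]
      rw [div_le_iff₀ hR] at hM1
      linarith
    have hM3 : (M : ℝ) ≤ 2 / R := by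
      have : 1 ≤ 1 / R := by rw [le_div_iff₀ hR]; linarith
      have e : 2 / R = 1 / R + 1 / R := by ring
      linarith
    have h01 : (0 : unitInterval) ≤ 1 := zero_le_one
    have h5 : E ⊆ ⋃ k ∈ Finset.range M, (E ∩ Set.Icc (gr 0 1 M k) (gr 0 1 M (k + 1))) := by
      intro w hw
      have h6 := gr_cover h01 hM (show w ∈ Set.Icc (0 : unitInterval) 1 from
        ⟨unitInterval.nonneg', unitInterval.le_one'⟩)
      rw [Set.mem_iUnion₂] at h6 ⊢
      obtain ⟨k, hk, hw'⟩ := h6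
      exact ⟨k, hk, hw, hw'⟩
    obtain ⟨N, hN⟩ : ∃ N : ℝ, N = (R / r) ^ (s : ℝ) := ⟨_, rfl⟩
    have hN0 : 0 ≤ N := by rw [hN]; positivity
    have h7 : ∀ k ∈ Finset.range M, volume (E ∩ Set.Icc (gr 0 1 M k) (gr 0 1 M (k + 1))) ≤
        ENNReal.ofReal (N * (2 * r)) := by
      intro k hk
      rcases (E ∩ Set.Icc (gr 0 1 M k) (gr 0 1 M (k + 1))).eq_empty_or_nonempty with h8 | h8
      · rw [h8, measure_empty]
        exact bot_le
      · obtain ⟨x, hx1, hx2⟩ := h8
        refine hpiece _ N hN0 ?_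
        have h9 := g1 x hx1
        rw [← hr, ← hN] at h9
        refine le_trans (cov_mono ?_ _) h9
        rintro y ⟨hy1, hy2⟩
        refine ⟨hy1, ?_⟩
        have c1 : (gr 0 1 M (k + 1) : ℝ) - gr 0 1 M k = 1 / M := by
          rw [gr_step h01 (Finset.mem_range.1 hk)]
          simp
        have c2 : (gr 0 1 M k : ℝ) ≤ x := hx2.1
        have c3 : (x : ℝ) ≤ gr 0 1 M (k + 1) := hx2.2
        have c4 : (gr 0 1 M k : ℝ) ≤ y := hy2.1
        have c5 : (y : ℝ) ≤ gr 0 1 M (k + 1) := hy2.2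
        rw [Metric.mem_closedBall, Subtype.dist_eq, Real.dist_eq, abs_le]
        constructor <;> linarith
    have h8 : volume E ≤ ENNReal.ofReal ((M : ℝ) * (N * (2 * r))) := by
      refine (measure_mono h5).trans ((measure_biUnion_finset_le _ _).trans
        ((Finset.sum_le_sum h7).trans ?_))
      rw [Finset.sum_const, nsmul_eq_mul, Finset.card_range,
        ENNReal.ofReal_mul (Nat.cast_nonneg _), ENNReal.ofReal_natCast]
    have h9 := ENNReal.toReal_mono ENNReal.ofReal_ne_top h8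
    rw [ENNReal.toReal_ofReal (by positivity)] at h9
    have h10 : (M : ℝ) * (N * (2 * r)) ≤ 4 * R ^ ((1 / θ - 1) * (1 - (s : ℝ))) := by
      calc (M : ℝ) * (N * (2 * r)) ≤ 2 / R * (N * (2 * r)) :=
            mul_le_mul_of_nonneg_right hM3 (by positivity)
        _ = 4 * (N * (r / R)) := by ring
        _ = 4 * R ^ ((1 / θ - 1) * (1 - (s : ℝ))) := by
            have c1 : r / R = R ^ (1 / θ - 1) := by rw [Real.rpow_sub_one hR.ne', ← hr]
            have c2 : R / r = R ^ (-(1 / θ - 1)) := by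
              rw [Real.rpow_neg hR.le, ← c1, inv_div]
            rw [hN, c2, c1, ← Real.rpow_mul hR.le, ← Real.rpow_add hR]
            congr 2
            ring
    linarith

end Pool.Agent.Q166.PD
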