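import Pool.Agent.Q166.PD.Img

/-!
Hausdorff dimension of sets of coincidence times.
-/

set_option autoImplicit false

open MeasureTheory Filter Topology
open scoped ENNReal NNReal

namespace Pool.Agent.Q166.PD

open Pool.Agent.Q166.PT

/-- Sets with small fibres. -/
theorem dim_few {X Y : Type*} [EMetricSpace X] [EMetricSpace Y] (π : X → Y) (Z : Set X)
    {s ε : ℝ≥0} {C C' h0 : ℝ} (hC : 0 ≤ C) (hC' : 0 ≤ C') (hh0 : 0 < h0)
    (hs : dimH (π '' Z) < s)
    (hfew : ∀ J : Set Y, J.Nonempty → ∀ h : ℝ, 0 < h → h ≤ h0 →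
      Metric.ediam J ≤ ENNReal.ofReal h →
      ∃ F : Finset (Set X), {x | x ∈ Z ∧ π x ∈ J} ⊆ ⋃ A ∈ F, A ∧
        (∀ A ∈ F, Metric.ediam A ≤ ENNReal.ofReal (C' * h)) ∧
        (F.card : ℝ) ≤ C * h ^ (-(ε : ℝ))) :
    dimH Z ≤ s + ε := by
  classical
  borelize X
  borelize Y
  have hs0 : 0 < (s : ℝ) := by
    have : (0 : ℝ≥0∞) < s := lt_of_le_of_lt bot_le hs
    exact_mod_cast this
  have hμ := hausdorffMeasure_of_dimH_lt hs
  rw [Measure.hausdorffMeasure_apply] at hμ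
  -- the covers of the projection
  have hcov : ∀ η : ℝ, 0 < η → ∃ J : ℕ → Set Y, π '' Z ⊆ ⋃ i, J i ∧
      (∀ i, Metric.ediam (J i) ≤ ENNReal.ofReal η) ∧
      ∑' i, (⨆ _ : (J i).Nonempty, Metric.ediam (J i) ^ (s : ℝ)) < ENNReal.ofReal η := by
    intro η hη
    have h1 : (⨅ (t : ℕ → Set Y) (_ : π '' Z ⊆ ⋃ n, t n)
        (_ : ∀ n, Metric.ediam (t n) ≤ ENNReal.ofReal η),
        ∑' n, ⨆ _ : (t n).Nonempty, Metric.ediam (t n) ^ (s : ℝ)) = 0 := by
      refine le_antisymm ?_ bot_le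
      rw [← hμ]
      exact le_iSup₂_of_le (ENNReal.ofReal η) (ENNReal.ofReal_pos.2 hη) le_rfl
    have h2 : (⨅ (t : ℕ → Set Y) (_ : π '' Z ⊆ ⋃ n, t n)
        (_ : ∀ n, Metric.ediam (t n) ≤ ENNReal.ofReal η),
        ∑' n, ⨆ _ : (t n).Nonempty, Metric.ediam (t n) ^ (s : ℝ)) < ENNReal.ofReal η := by
      rw [h1]
      exact ENNReal.ofReal_pos.2 hη
    simp only [iInf_lt_iff] at h2
    obtain ⟨t, h3, h4, h5⟩ := h2
    exact ⟨t, h3, h4, h5⟩
  -- for every `n` a cover of `Z`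
  have hη : ∀ n : ℕ, 0 < h0 / ((n : ℝ) + 1) := fun n => by positivity
  have hηh : ∀ n : ℕ, h0 / ((n : ℝ) + 1) ≤ h0 := fun n =>
    div_le_self hh0.le (by linarith [Nat.cast_nonneg (α := ℝ) n])
  choose J hJ1 hJ2 hJ3 using fun n : ℕ => hcov _ (hη n)
  obtain ⟨δ, hδ⟩ : ∃ δ : ℕ → ℕ → ℝ, ∀ n i, δ n i =
    min (h0 / ((n : ℝ) + 1)) ((h0 / ((n : ℝ) + 1) * (1 / 2) ^ (i + 1)) ^ (1 / (s : ℝ))) :=
    ⟨_, fun _ _ => rfl⟩
  have hδ0 : ∀ n i, 0 < δ n i := by
    intro n i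
    rw [hδ]
    have := hη n
    positivity
  have hδs : ∀ n i, δ n i ^ (s : ℝ) ≤ h0 / ((n : ℝ) + 1) * (1 / 2) ^ (i + 1) := by
    intro n i
    have h1 : δ n i ≤ (h0 / ((n : ℝ) + 1) * (1 / 2) ^ (i + 1)) ^ (1 / (s : ℝ)) := by
      rw [hδ]; exact min_le_right _ _
    have h2 := Real.rpow_le_rpow (hδ0 n i).le h1 hs0.le
    have hp : 0 ≤ h0 / ((n : ℝ) + 1) * (1 / 2) ^ (i + 1) := by have := hη n; positivity
    rwa [← Real.rpow_mul hp, one_div_mul_cancel hs0.ne', Real.rpow_one] at h2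
  obtain ⟨hh, hhd⟩ : ∃ hh : ℕ → ℕ → ℝ, ∀ n i, hh n i = max (Metric.ediam (J n i)).toReal (δ n i) :=
    ⟨_, fun _ _ => rfl⟩
  have hJtop : ∀ n i, Metric.ediam (J n i) ≠ ⊤ := fun n i =>
    ne_top_of_le_ne_top ENNReal.ofReal_ne_top (hJ2 n i)
  have hh0' : ∀ n i, 0 < hh n i := fun n i => by
    rw [hhd]
    exact lt_max_of_lt_right (hδ0 n i)
  have hh1 : ∀ n i, hh n i ≤ h0 / ((n : ℝ) + 1) := by
    intro n i
    rw [hhd]
    refine max_le ?_ ?_
    · have := ENNReal.toReal_mono ENNReal.ofReal_ne_top (hJ2 n i)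
      rwa [ENNReal.toReal_ofReal (hη n).le] at this
    · rw [hδ]
      exact min_le_left _ _
  have hh2 : ∀ n i, Metric.ediam (J n i) ≤ ENNReal.ofReal (hh n i) := by
    intro n i
    rw [← ENNReal.ofReal_toReal (hJtop n i)]
    apply ENNReal.ofReal_le_ofReal
    rw [hhd]
    exact le_max_left _ _
  have hF : ∀ n i, ∃ F : Finset (Set X), {x | x ∈ Z ∧ π x ∈ J n i} ⊆ ⋃ A ∈ F, A ∧
      (∀ A ∈ F, Metric.ediam A ≤ ENNReal.ofReal (C' * hh n i)) ∧
      (F.card : ℝ) ≤ C * hh n i ^ (-(ε : ℝ)) ∧ (J n i = ∅ → F = ∅) := by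
    intro n i
    rcases (J n i).eq_empty_or_nonempty with h1 | h1
    · refine ⟨∅, ?_, by simp, ?_, fun _ => rfl⟩
      · rw [h1]
        simp
      · have := hh0' n i
        simp only [Finset.card_empty, Nat.cast_zero]
        positivity
    · obtain ⟨F, f1, f2, f3⟩ := hfew (J n i) h1 (hh n i) (hh0' n i) ((hh1 n i).trans (hηh n))
        (hh2 n i)
      exact ⟨F, f1, f2, f3, fun h => absurd h h1.ne_empty⟩
  choose F hF1 hF2 hF3 hF4 using hF
  have hd : ((s : ℝ≥0∞) + ε) = ((s + ε : ℝ≥0) : ℝ≥0∞) := by push_cast; rfl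
  rw [hd]
  apply dimH_le_of_hausdorffMeasure_ne_top
  have hmain := Measure.hausdorffMeasure_le_liminf_tsum (X := X) (β := ℕ)
    (ι := fun n => Σ i : ℕ, {A : Set X // A ∈ F n i}) ((s + ε : ℝ≥0) : ℝ) Z (l := atTop)
    (fun n => ENNReal.ofReal (C' * (h0 / ((n : ℝ) + 1)))) (by
      have h1 : Tendsto (fun n : ℕ => C' * (h0 / ((n : ℝ) + 1))) atTop (𝓝 (C' * (h0 * 0))) := by
        refine Tendsto.const_mul _ ?_
        have h2 := (tendsto_one_div_add_atTop_nhds_zero_nat (𝕜 := ℝ)).const_mul h0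
        refine h2.congr fun n => ?_
        ring
      rw [mul_zero, mul_zero] at h1
      have h2 := ENNReal.tendsto_ofReal h1
      rwa [ENNReal.ofReal_zero] at h2)
    (fun n p => p.2.1) (Eventually.of_forall fun n p => (hF2 n p.1 p.2.1 p.2.2).trans
      (ENNReal.ofReal_le_ofReal (mul_le_mul_of_nonneg_left (hh1 n p.1) hC')))
    (Eventually.of_forall fun n => by
      intro x hx
      have h1 := hJ1 n ⟨x, hx, rfl⟩
      rw [Set.mem_iUnion] at h1
      obtain ⟨i, hi⟩ := h1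
      have h2 := hF1 n i ⟨hx, hi⟩
      rw [Set.mem_iUnion₂] at h2
      obtain ⟨A, hA, hxA⟩ := h2
      exact Set.mem_iUnion.2 ⟨⟨i, A, hA⟩, hxA⟩)
  -- the sums tend to zero
  have hsum : ∀ n : ℕ, ∑' p : (Σ i : ℕ, {A : Set X // A ∈ F n i}),
      Metric.ediam (p.2.1) ^ ((s + ε : ℝ≥0) : ℝ) ≤
      ENNReal.ofReal (C * C' ^ ((s + ε : ℝ≥0) : ℝ)) *
        (ENNReal.ofReal (h0 / ((n : ℝ) + 1)) + ENNReal.ofReal (h0 / ((n : ℝ) + 1))) := by
    intro n
    rw [ENNReal.tsum_sigma']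
    have h1 : ∀ i, ∑' A : {A : Set X // A ∈ F n i}, Metric.ediam (A.1) ^ ((s + ε : ℝ≥0) : ℝ) ≤
        ENNReal.ofReal (C * C' ^ ((s + ε : ℝ≥0) : ℝ)) *
          ((⨆ _ : (J n i).Nonempty, Metric.ediam (J n i) ^ (s : ℝ)) +
            ENNReal.ofReal (h0 / ((n : ℝ) + 1) * (1 / 2) ^ (i + 1))) := by
      intro i
      rcases (J n i).eq_empty_or_nonempty with h2 | h2
      · have h3 := hF4 n i h2
        have : IsEmpty {A : Set X // A ∈ F n i} :=
          ⟨fun A => Finset.notMem_empty A.1 (h3.subset A.2)⟩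
        rw [tsum_empty]
        exact bot_le
      · rw [tsum_fintype]
        have h3 : ∀ A : {A : Set X // A ∈ F n i}, Metric.ediam (A.1) ^ ((s + ε : ℝ≥0) : ℝ) ≤
            ENNReal.ofReal ((C' * hh n i) ^ ((s + ε : ℝ≥0) : ℝ)) := by
          intro A
          have h4 := ENNReal.rpow_le_rpow (hF2 n i A.1 A.2) (s + ε : ℝ≥0).2
          rwa [ENNReal.ofReal_rpow_of_nonneg (mul_nonneg hC' (hh0' n i).le) (s + ε : ℝ≥0).2] at h4
        refine (Finset.sum_le_sum fun A _ => h3 A).trans ?_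
        rw [Finset.sum_const, nsmul_eq_mul, Finset.card_univ, Fintype.card_coe,
          iSup_pos h2]
        have h5 : ENNReal.ofReal (hh n i ^ (s : ℝ)) ≤ Metric.ediam (J n i) ^ (s : ℝ) +
            ENNReal.ofReal (h0 / ((n : ℝ) + 1) * (1 / 2) ^ (i + 1)) := by
          rw [hhd]
          rcases le_total (Metric.ediam (J n i)).toReal (δ n i) with g | g
          · rw [max_eq_right g]
            exact (ENNReal.ofReal_le_ofReal (hδs n i)).trans le_add_self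
          · rw [max_eq_left g, ← ENNReal.ofReal_rpow_of_nonneg ENNReal.toReal_nonneg hs0.le,
              ENNReal.ofReal_toReal (hJtop n i)]
            exact le_self_add
        refine le_trans ?_ (mul_le_mul_right h5 _)
        rw [← ENNReal.ofReal_natCast, ← ENNReal.ofReal_mul (Nat.cast_nonneg _),
          ← ENNReal.ofReal_mul (by positivity)]
        apply ENNReal.ofReal_le_ofReal
        have hp := hh0' n i
        calc ((F n i).card : ℝ) * (C' * hh n i) ^ ((s + ε : ℝ≥0) : ℝ)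
            ≤ (C * hh n i ^ (-(ε : ℝ))) * (C' * hh n i) ^ ((s + ε : ℝ≥0) : ℝ) :=
              mul_le_mul_of_nonneg_right (hF3 n i) (by positivity)
          _ = C * C' ^ ((s + ε : ℝ≥0) : ℝ) * hh n i ^ (s : ℝ) := by
              rw [Real.mul_rpow hC' hp.le]
              have e1 : hh n i ^ ((s + ε : ℝ≥0) : ℝ) = hh n i ^ (s : ℝ) * hh n i ^ (ε : ℝ) := by
                rw [← Real.rpow_add hp]
                push_cast
                rfl
              have e2 : hh n i ^ (-(ε : ℝ)) * hh n i ^ (ε : ℝ) = 1 := by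
                rw [← Real.rpow_add hp]
                simp
              rw [e1]
              calc _ = C * C' ^ ((s + ε : ℝ≥0) : ℝ) * hh n i ^ (s : ℝ) *
                    (hh n i ^ (-(ε : ℝ)) * hh n i ^ (ε : ℝ)) := by ring
                _ = _ := by rw [e2, mul_one]
    refine (ENNReal.tsum_le_tsum h1).trans ?_
    rw [ENNReal.tsum_mul_left, ENNReal.tsum_add]
    refine mul_le_mul_right (add_le_add (hJ3 n).le ?_) _
    have h6 : ∑' i : ℕ, ENNReal.ofReal (h0 / ((n : ℝ) + 1) * (1 / 2) ^ (i + 1)) =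
        ENNReal.ofReal (h0 / ((n : ℝ) + 1)) * ∑' i : ℕ, ENNReal.ofReal ((1 / 2 : ℝ) ^ (i + 1)) := by
      rw [← ENNReal.tsum_mul_left]
      exact tsum_congr fun i => ENNReal.ofReal_mul (hη n).le
    rw [h6]
    have h7 : ∑' i : ℕ, ENNReal.ofReal ((1 / 2 : ℝ) ^ (i + 1)) = 1 := by
      rw [← ENNReal.ofReal_tsum_of_nonneg (fun i => by positivity)]
      · have : ∑' i : ℕ, (1 / 2 : ℝ) ^ (i + 1) = 1 := by
          simp only [pow_succ]
          rw [tsum_mul_right, tsum_geometric_two]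
          norm_num
        rw [this, ENNReal.ofReal_one]
      · simp only [pow_succ]
        exact (summable_geometric_two).mul_right _
    rw [h7, mul_one]
  have hlim : Tendsto (fun n : ℕ => ENNReal.ofReal (C * C' ^ ((s + ε : ℝ≥0) : ℝ)) *
      (ENNReal.ofReal (h0 / ((n : ℝ) + 1)) + ENNReal.ofReal (h0 / ((n : ℝ) + 1)))) atTop (𝓝 0) := by
    have h1 : Tendsto (fun n : ℕ => h0 / ((n : ℝ) + 1)) atTop (𝓝 0) := by
      have h2 := (tendsto_one_div_add_atTop_nhds_zero_nat (𝕜 := ℝ)).const_mul h0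
      rw [mul_zero] at h2
      refine h2.congr fun n => ?_
      ring
    have h2 := ENNReal.tendsto_ofReal h1
    rw [ENNReal.ofReal_zero] at h2
    have h3 := ENNReal.Tendsto.const_mul (h2.add h2)
      (a := ENNReal.ofReal (C * C' ^ ((s + ε : ℝ≥0) : ℝ))) (Or.inr ENNReal.ofReal_ne_top)
    simpa using h3
  have hzero : liminf (fun n : ℕ => ∑' p : (Σ i : ℕ, {A : Set X // A ∈ F n i}),
      Metric.ediam (p.2.1) ^ ((s + ε : ℝ≥0) : ℝ)) atTop ≤ 0 := by
    rw [← hlim.liminf_eq]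
    exact liminf_le_liminf (Eventually.of_forall hsum)
  exact ne_top_of_le_ne_top ENNReal.zero_ne_top (hmain.trans hzero)

/-- Times of coincidence: the set of all `k + 1`-tuples projects with the same dimension. -/
theorem coin_low {f : C(unitInterval, ℂ)} (h : Reg f) {k : ℕ}
    (Z : Set (Fin (k + 1) → unitInterval)) (hZ : ∀ x ∈ Z, ∀ i, f (x i) = f (x 0)) :
    dimH Z ≤ dimH ((fun x : Fin (k + 1) → unitInterval => x 0) '' Z) := by
  classical
  refine le_of_forall_gt_imp_ge_of_dense fun a ha => ?_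
  rcases eq_or_ne a ⊤ with rfl | hat
  · exact le_top
  obtain ⟨s, hs1, hs2⟩ := ENNReal.lt_iff_exists_nnreal_btwn.1 ha
  obtain ⟨ε, hε, hεa⟩ : ∃ ε : ℝ≥0, 0 < ε ∧ (s : ℝ≥0∞) + ε ≤ a := by
    obtain ⟨b, hb1, hb2⟩ := ENNReal.lt_iff_exists_nnreal_btwn.1 hs2
    have hsb : s < b := by exact_mod_cast hb1
    refine ⟨b - s, tsub_pos_of_lt hsb, ?_⟩
    have : ((s : ℝ≥0∞) + ((b - s : ℝ≥0) : ℝ≥0∞)) = b := by
      rw [← ENNReal.coe_add, add_tsub_cancel_of_le hsb.le]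
    rw [this]
    exact hb2.le
  refine le_trans ?_ hεa
  have hε' : (0 : ℝ) < ε := by exact_mod_cast hε
  -- exponents
  obtain ⟨e, he⟩ : ∃ e : ℝ, e = min (1/2) ((ε : ℝ) / (2 * (k + 1))) := ⟨_, rfl⟩
  have hk : (0 : ℝ) < 2 * (k + 1) := by positivity
  have e0 : 0 < e := by rw [he]; exact lt_min (by norm_num) (by positivity)
  have e1 : e ≤ 1/2 := by rw [he]; exact min_le_left _ _
  have e2 : e ≤ (ε : ℝ) / (2 * (k + 1)) := by rw [he]; exact min_le_right _ _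
  obtain ⟨β, hβ⟩ : ∃ β : ℝ, β = 4/7 * (1 - e) := ⟨_, rfl⟩
  obtain ⟨α, hα⟩ : ∃ α : ℝ, α = 7/4 * (1 - e) := ⟨_, rfl⟩
  have b0 : 0 < β := by rw [hβ]; linarith
  have b1 : β < 4/7 := by rw [hβ]; linarith
  have a0 : 0 < α := by rw [hα]; linarith
  have a1 : α < 7/4 := by rw [hα]; linarith
  have hab : ((k : ℝ) + 1) * (1 - α * β) ≤ ε := by
    have h1 : 1 - α * β ≤ 2 * e := by rw [hα, hβ]; nlinarith
    rw [le_div_iff₀ hk] at e2
    calc ((k : ℝ) + 1) * (1 - α * β) ≤ ((k : ℝ) + 1) * (2 * e) :=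
          mul_le_mul_of_nonneg_left h1 (by positivity)
      _ = e * (2 * (k + 1)) := by ring
      _ ≤ ε := e2
  obtain ⟨K, hK, hh⟩ := h.hol b0 b1
  obtain ⟨Λ, hΛ, ho⟩ := h.2 α a0 a1
  obtain ⟨D, hD⟩ : ∃ D : ℝ, D = 2 * Λ * (K + 2) ^ α * K ^ (α - 1 / β) := ⟨_, rfl⟩
  have hD0 : 0 < D := by rw [hD]; positivity
  obtain ⟨h0, hh0⟩ : ∃ h0 : ℝ, h0 = min 1 ((1 / K) ^ (1 / β)) := ⟨_, rfl⟩
  have p0 : 0 < h0 := by rw [hh0]; positivity
  have p1 : h0 ≤ 1 := by rw [hh0]; exact min_le_left _ _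
  have p2 : h0 ≤ (1 / K) ^ (1 / β) := by rw [hh0]; exact min_le_right _ _
  refine dim_few (fun x : Fin (k + 1) → unitInterval => x 0) Z (C := D ^ (k + 1))
    (C' := 2 * K ^ (1 / β)) (h0 := h0) (by positivity) (by positivity) p0 hs1 ?_
  intro J hJ h' hp hp1 hJh
  obtain ⟨t0, ht0⟩ := hJ
  obtain ⟨r, hr⟩ : ∃ r : ℝ, r = K * h' ^ β := ⟨_, rfl⟩
  have hr0 : 0 < r := by rw [hr]; positivity
  have hr1 : r ≤ 1 := by
    have h1 : h' ^ β ≤ ((1 / K) ^ (1 / β)) ^ β :=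
      Real.rpow_le_rpow hp.le (hp1.trans p2) b0.le
    rw [← Real.rpow_mul (by positivity), one_div_mul_cancel b0.ne', Real.rpow_one] at h1
    rw [hr]
    calc K * h' ^ β ≤ K * (1 / K) := mul_le_mul_of_nonneg_left h1 hK.le
      _ = 1 := by field_simp
  have hrb : r ^ (1 / β) = K ^ (1 / β) * h' := by
    rw [hr, Real.mul_rpow hK.le (by positivity), ← Real.rpow_mul hp.le, mul_one_div_cancel b0.ne',
      Real.rpow_one]
  obtain ⟨T, hT1, hT2⟩ := few_times hK b0 hh hΛ ho (f t0) hr0 hr1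
  refine ⟨(Fintype.piFinset fun _ : Fin (k + 1) => T).image
    (fun τ => {x : Fin (k + 1) → unitInterval | ∀ i, dist (x i) (τ i) ≤ r ^ (1 / β)}),
    ?_, ?_, ?_⟩
  · rintro x ⟨hxZ, hxJ⟩
    have h1 : ∀ i, ∃ t ∈ T, dist (x i) t ≤ r ^ (1 / β) := by
      intro i
      apply hT1
      rw [hZ x hxZ i]
      refine (hh (x 0) t0).trans ?_
      rw [hr]
      refine mul_le_mul_of_nonneg_left (Real.rpow_le_rpow (abs_nonneg _) ?_ b0.le) hK.le
      have h2 := (Metric.edist_le_ediam_of_mem hxJ ht0).trans hJh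
      rw [edist_dist] at h2
      exact (ENNReal.ofReal_le_ofReal_iff hp.le).1 h2
    choose τ hτ1 hτ2 using h1
    refine Set.mem_iUnion₂.2 ⟨_, Finset.mem_image_of_mem _ (Fintype.mem_piFinset.2 hτ1), hτ2⟩
  · intro A hA
    rw [Finset.mem_image] at hA
    obtain ⟨τ, -, rfl⟩ := hA
    refine Metric.ediam_le fun x hx y hy => ?_
    rw [edist_dist]
    apply ENNReal.ofReal_le_ofReal
    rw [dist_pi_le_iff (by positivity)]
    intro i
    calc dist (x i) (y i) ≤ dist (x i) (τ i) + dist (y i) (τ i) := dist_triangle_right _ _ _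
      _ ≤ r ^ (1 / β) + r ^ (1 / β) := add_le_add (hx i) (hy i)
      _ = 2 * K ^ (1 / β) * h' := by rw [hrb]; ring
  · have h1 : (((Fintype.piFinset fun _ : Fin (k + 1) => T).image
        (fun τ => {x : Fin (k + 1) → unitInterval | ∀ i, dist (x i) (τ i) ≤ r ^ (1 / β)})).card : ℝ)
        ≤ (T.card : ℝ) ^ (k + 1) := by
      have h2 := Finset.card_image_le (s := Fintype.piFinset fun _ : Fin (k + 1) => T)
        (f := fun τ => {x : Fin (k + 1) → unitInterval | ∀ i, dist (x i) (τ i) ≤ r ^ (1 / β)})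
      rw [Fintype.card_piFinset, Finset.prod_const, Finset.card_univ, Fintype.card_fin] at h2
      exact_mod_cast h2
    refine h1.trans ?_
    have h3 : (T.card : ℝ) ≤ D * h' ^ (α * β - 1) := by
      refine hT2.trans (le_of_eq ?_)
      rw [hr, Real.mul_rpow hK.le (by positivity), ← Real.rpow_mul hp.le, hD]
      have : β * (α - 1 / β) = α * β - 1 := by field_simp
      rw [this]
      ring
    calc (T.card : ℝ) ^ (k + 1) ≤ (D * h' ^ (α * β - 1)) ^ (k + 1) :=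
          pow_le_pow_left₀ (Nat.cast_nonneg _) h3 _
      _ = D ^ (k + 1) * h' ^ ((α * β - 1) * ((k : ℝ) + 1)) := by
          rw [mul_pow, ← Real.rpow_natCast (h' ^ (α * β - 1)), ← Real.rpow_mul hp.le]
          push_cast
          rfl
      _ ≤ D ^ (k + 1) * h' ^ (-(ε : ℝ)) := by
          refine mul_le_mul_of_nonneg_left ?_ (by positivity)
          exact Real.rpow_le_rpow_of_exponent_ge hp (hp1.trans p1) (by nlinarith)

/-- Uniform dimension on the sets of coincidence times. -/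
theorem coin {f : C(unitInterval, ℂ)} (h : Reg f)
    (hu : ∀ E : Set unitInterval, dimH (f '' E) = 7 / 4 * dimH E) {k : ℕ}
    (Z : Set (Fin (k + 1) → unitInterval)) (hZ : ∀ x ∈ Z, ∀ i, f (x i) = f (x 0)) :
    dimH ((fun x : Fin (k + 1) → unitInterval => f (x 0)) '' Z) = 7 / 4 * dimH Z := by
  have e : (fun x : Fin (k + 1) → unitInterval => f (x 0)) '' Z =
      f '' ((fun x : Fin (k + 1) → unitInterval => x 0) '' Z) := by
    rw [Set.image_image]
  rw [e, hu]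
  congr 1
  refine le_antisymm ?_ (coin_low h Z hZ)
  exact (LipschitzWith.eval (0 : Fin (k + 1))).dimH_image_le Z

end Pool.Agent.Q166.PD
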