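import Mathlib

/-!
Box and packing dimensions of the images of all sets of times under a curve with a modulus of
continuity and bounded occupation times.
-/

set_option autoImplicit false

open MeasureTheory Filter Topology
open scoped ENNReal NNReal

namespace Pool.Agent.Q166.PD

/-! ### Exponents of counting functions -/

/-- the upper exponent of the counting function `N` at `0` -/
noncomputable def ud (N : ℝ → ℝ≥0∞) : ℝ≥0∞ :=
  ⨅ (s : ℝ≥0) (_ : ∀ᶠ r : ℝ in 𝓝[>] 0, N r ≤ ENNReal.ofReal (r ^ (-(s : ℝ)))), (s : ℝ≥0∞)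

/-- the lower exponent of the counting function `N` at `0` -/
noncomputable def ld (N : ℝ → ℝ≥0∞) : ℝ≥0∞ :=
  ⨅ (s : ℝ≥0) (_ : ∃ᶠ r : ℝ in 𝓝[>] 0, N r ≤ ENNReal.ofReal (r ^ (-(s : ℝ)))), (s : ℝ≥0∞)

/-- comparison of the counting functions at the radii `K r ^ b` and `r` -/
def Cmp (N1 N2 : ℝ → ℝ≥0∞) (c0 : ℝ) : Prop :=
  ∀ c η : ℝ, c0 < c → 0 < η → ∃ K b C e : ℝ, 0 < K ∧ 0 < b ∧ 0 < C ∧ 0 ≤ e ∧ 1 / b ≤ c ∧
    e / b ≤ η ∧ ∀ᶠ r : ℝ in 𝓝[>] 0, N1 (K * r ^ b) ≤ ENNReal.ofReal (C * r ^ (-e)) * N2 r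

theorem tend_pow {K b : ℝ} (hK : 0 < K) (hb : 0 < b) :
    Tendsto (fun r : ℝ => K * r ^ b) (𝓝[>] 0) (𝓝[>] 0) := by
  refine tendsto_nhdsWithin_iff.2 ⟨?_, ?_⟩
  · have h1 : Tendsto (fun r : ℝ => K * r ^ b) (𝓝 0) (𝓝 (K * 0 ^ b)) :=
      ((Real.continuousAt_rpow_const 0 b (Or.inr hb.le)).tendsto).const_mul K
    rw [Real.zero_rpow hb.ne', mul_zero] at h1
    exact h1.mono_left nhdsWithin_le_nhds
  · filter_upwards [self_mem_nhdsWithin] with r hr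
    have : 0 < r := hr
    exact mul_pos hK (Real.rpow_pos_of_pos this _)

theorem core {N1 N2 : ℝ → ℝ≥0∞} {c0 : ℝ} (h : Cmp N1 N2 c0) {s s' : ℝ} (hs0 : 0 ≤ s)
    (hs : c0 * s < s') : ∃ K b : ℝ, 0 < K ∧ 0 < b ∧ ∀ᶠ r : ℝ in 𝓝[>] 0,
      N2 r ≤ ENNReal.ofReal (r ^ (-s)) →
        N1 (K * r ^ b) ≤ ENNReal.ofReal ((K * r ^ b) ^ (-s')) := by
  obtain ⟨d, hd⟩ : ∃ d, d = (s' - c0 * s) / (2 * (s + 1)) := ⟨_, rfl⟩
  have hs1 : 0 < 2 * (s + 1) := by linarith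
  have hd0 : 0 < d := by rw [hd]; exact div_pos (by linarith) hs1
  have hd1 : d * (2 * (s + 1)) = s' - c0 * s := by rw [hd, div_mul_cancel₀ _ hs1.ne']
  obtain ⟨K, b, C, e, hK, hb, hC, he, h1, h2, h3⟩ := h (c0 + d) d (by linarith) hd0
  have hexp : (e + s) / b < s' := by
    have e1 : (e + s) / b = e / b + s * (1 / b) := by ring
    rw [e1]
    have e2 : s * (1 / b) ≤ s * (c0 + d) := mul_le_mul_of_nonneg_left h1 hs0
    nlinarith
  have hneg : 0 < b * s' - (e + s) := by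
    rw [div_lt_iff₀ hb] at hexp
    linarith
  refine ⟨K, b, hK, hb, ?_⟩
  -- eventually the constants are absorbed
  have hT : Tendsto (fun r : ℝ => (C * K ^ s') * r ^ (b * s' - (e + s))) (𝓝[>] 0) (𝓝[>] 0) :=
    tend_pow (by positivity) hneg
  have hev : ∀ᶠ r : ℝ in 𝓝[>] 0, (C * K ^ s') * r ^ (b * s' - (e + s)) < 1 :=
    (hT.mono_right nhdsWithin_le_nhds).eventually (gt_mem_nhds zero_lt_one)
  filter_upwards [h3, hev, self_mem_nhdsWithin] with r g1 g2 g3 g4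
  have hr : 0 < r := g3
  refine g1.trans ((mul_le_mul_right g4 _).trans ?_)
  rw [← ENNReal.ofReal_mul (by positivity)]
  apply ENNReal.ofReal_le_ofReal
  have hKr : 0 < K * r ^ b := by positivity
  rw [Real.rpow_neg hKr.le, Real.mul_rpow hK.le (by positivity), ← Real.rpow_mul hr.le,
    inv_eq_one_div, le_div_iff₀ (by positivity)]
  have key : C * r ^ (-e) * r ^ (-s) * (K ^ s' * r ^ (b * s')) =
      (C * K ^ s') * r ^ (b * s' - (e + s)) := by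
    have e1 : b * s' - (e + s) = -e + -s + b * s' := by ring
    rw [e1, Real.rpow_add hr, Real.rpow_add hr]
    ring
  rw [key]
  exact g2.le

theorem ud_le {N1 N2 : ℝ → ℝ≥0∞} {c0 : ℝ} (hc0 : 0 < c0) (h : Cmp N1 N2 c0) :
    ud N1 ≤ ENNReal.ofReal c0 * ud N2 := by
  by_contra hcon
  push Not at hcon
  have h0 : ENNReal.ofReal c0 ≠ 0 := by
    rw [Ne, ENNReal.ofReal_eq_zero]
    linarith
  unfold ud at hcon
  rw [ENNReal.mul_iInf_of_ne h0 ENNReal.ofReal_ne_top] at hcon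
  simp only [ENNReal.mul_iInf_of_ne h0 ENNReal.ofReal_ne_top, iInf_lt_iff] at hcon
  obtain ⟨s, hs, h1⟩ := hcon
  obtain ⟨s', h2, h3⟩ := ENNReal.lt_iff_exists_nnreal_btwn.1 h1
  have h4 : c0 * (s : ℝ) < (s' : ℝ) := by
    have e1 : ENNReal.ofReal c0 * (s : ℝ≥0∞) = ENNReal.ofReal (c0 * s) := by
      rw [ENNReal.ofReal_mul hc0.le, ENNReal.ofReal_coe_nnreal]
    rw [e1, ← ENNReal.ofReal_coe_nnreal (p := s')] at h2
    exact (ENNReal.ofReal_lt_ofReal_iff_of_nonneg (by positivity)).1 h2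
  obtain ⟨K, b, hK, hb, hev⟩ := core h s.2 h4
  refine absurd h3 (not_lt.2 (iInf₂_le s' ?_))
  have hT : Tendsto (fun ρ : ℝ => (1 / K) ^ (1 / b) * ρ ^ (1 / b)) (𝓝[>] 0) (𝓝[>] 0) :=
    tend_pow (by positivity) (by positivity)
  filter_upwards [hT.eventually (hev.and hs), self_mem_nhdsWithin] with ρ g1 g2
  have hρ : 0 < ρ := g2
  have e2 : K * ((1 / K) ^ (1 / b) * ρ ^ (1 / b)) ^ b = ρ := by
    rw [Real.mul_rpow (by positivity) (by positivity), ← Real.rpow_mul (by positivity),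
      ← Real.rpow_mul hρ.le, one_div_mul_cancel hb.ne', Real.rpow_one, Real.rpow_one]
    field_simp
  have := g1.1 g1.2
  rwa [e2] at this

theorem ld_le {N1 N2 : ℝ → ℝ≥0∞} {c0 : ℝ} (hc0 : 0 < c0) (h : Cmp N1 N2 c0) :
    ld N1 ≤ ENNReal.ofReal c0 * ld N2 := by
  by_contra hcon
  push Not at hcon
  have h0 : ENNReal.ofReal c0 ≠ 0 := by
    rw [Ne, ENNReal.ofReal_eq_zero]
    linarith
  unfold ld at hcon
  rw [ENNReal.mul_iInf_of_ne h0 ENNReal.ofReal_ne_top] at hcon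
  simp only [ENNReal.mul_iInf_of_ne h0 ENNReal.ofReal_ne_top, iInf_lt_iff] at hcon
  obtain ⟨s, hs, h1⟩ := hcon
  obtain ⟨s', h2, h3⟩ := ENNReal.lt_iff_exists_nnreal_btwn.1 h1
  have h4 : c0 * (s : ℝ) < (s' : ℝ) := by
    have e1 : ENNReal.ofReal c0 * (s : ℝ≥0∞) = ENNReal.ofReal (c0 * s) := by
      rw [ENNReal.ofReal_mul hc0.le, ENNReal.ofReal_coe_nnreal]
    rw [e1, ← ENNReal.ofReal_coe_nnreal (p := s')] at h2
    exact (ENNReal.ofReal_lt_ofReal_iff_of_nonneg (by positivity)).1 h2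
  obtain ⟨K, b, hK, hb, hev⟩ := core h s.2 h4
  refine absurd h3 (not_lt.2 (iInf₂_le s' ?_))
  refine (tend_pow hK hb).frequently (p := fun ρ : ℝ => N1 ρ ≤ ENNReal.ofReal (ρ ^ (-(s' : ℝ)))) ?_
  exact (hs.and_eventually hev).mono fun r hr => hr.2 hr.1

end Pool.Agent.Q166.PD
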