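import Pool.Agent.Q166.PD.Img

/-!
Sets of times of positive measure.
-/

set_option autoImplicit false

open MeasureTheory Filter Topology
open scoped ENNReal NNReal

namespace Pool.Agent.Q166.PD

open Pool.Agent.Q166.PT

theorem ld_le_ud (N : ℝ → ℝ≥0∞) : ld N ≤ ud N := by
  refine le_iInf₂ fun s hs => iInf₂_le s hs.frequently

theorem ub_one (E : Set unitInterval) : ubdim E ≤ 1 := by
  refine le_of_forall_gt_imp_ge_of_dense fun a ha => ?_
  rcases eq_or_ne a ⊤ with rfl | hat
  · exact le_top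
  lift a to ℝ≥0 using hat with s
  have hs : 1 < (s : ℝ) := by exact_mod_cast ha
  refine iInf₂_le s ?_
  have hev : ∀ᶠ r : ℝ in 𝓝[>] 0, 2 * r ^ ((s : ℝ) - 1) < 1 :=
    ((tend_pow (K := 2) (b := (s : ℝ) - 1) (by norm_num) (by linarith)).mono_right
      nhdsWithin_le_nhds).eventually (gt_mem_nhds zero_lt_one)
  filter_upwards [hev, Ioo_mem_nhdsGT (zero_lt_one' ℝ)] with r h1 h2
  obtain ⟨hr, hr1⟩ := h2
  obtain ⟨M, hMd⟩ : ∃ M : ℕ, M = ⌈1 / r⌉₊ := ⟨_, rfl⟩
  have hM1 : 1 / r ≤ M := by rw [hMd]; exact Nat.le_ceil _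
  have hM2 : (M : ℝ) < 1 / r + 1 := by
    rw [hMd]
    exact Nat.ceil_lt_add_one (by positivity)
  have hM0 : (0 : ℝ) < M := lt_of_lt_of_le (by positivity) hM1
  have hM : 0 < M := by exact_mod_cast hM0
  have hMh : 1 / (M : ℝ) ≤ r := by
    rw [div_le_iff₀ hM0]
    rw [div_le_iff₀ hr] at hM1
    linarith
  have hM3 : (M : ℝ) ≤ 2 / r := by
    have : 1 ≤ 1 / r := by rw [le_div_iff₀ hr]; linarith
    have e : 2 / r = 1 / r + 1 / r := by ring
    linarith
  have h01 : (0 : unitInterval) ≤ 1 := zero_le_one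
  classical
  have h3 := cov_le_card (A := E) (r := r)
    (C := ((Finset.range M).image (fun k => gr 0 1 M k) : Set unitInterval)) (by
      intro x _
      have h4 := gr_cover h01 hM (show x ∈ Set.Icc (0 : unitInterval) 1 from
        ⟨unitInterval.nonneg', unitInterval.le_one'⟩)
      simp only [Set.mem_iUnion] at h4
      obtain ⟨k, hk, hks⟩ := h4
      refine ⟨gr 0 1 M k, Finset.mem_coe.2 (Finset.mem_image_of_mem _ hk), ?_⟩
      rw [Subtype.dist_eq, Real.dist_eq, abs_le]
      have g1 : (gr 0 1 M (k + 1) : ℝ) - gr 0 1 M k = 1 / M := by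
        rw [gr_step h01 (Finset.mem_range.1 hk)]
        simp
      have g2 : (gr 0 1 M k : ℝ) ≤ x := hks.1
      have g3 : (x : ℝ) ≤ gr 0 1 M (k + 1) := hks.2
      constructor <;> linarith)
  refine h3.trans ?_
  rw [Set.encard_coe_eq_coe_finsetCard]
  have h4 : (((Finset.range M).image (fun k => gr 0 1 M k)).card : ℝ) ≤ r ^ (-(s : ℝ)) := by
    have h5 : (((Finset.range M).image (fun k => gr 0 1 M k)).card : ℝ) ≤ M := by
      have := Finset.card_image_le (s := Finset.range M) (f := fun k => gr 0 1 M k)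
      rw [Finset.card_range] at this
      exact_mod_cast this
    refine h5.trans (hM3.trans ?_)
    rw [Real.rpow_neg hr.le, inv_eq_one_div, div_le_div_iff₀ hr (by positivity), one_mul]
    have e : r ^ (s : ℝ) = r ^ ((s : ℝ) - 1) * r := by
      rw [Real.rpow_sub_one hr.ne', div_mul_cancel₀ _ hr.ne']
    rw [e]
    nlinarith
  have h6 := ENNReal.ofReal_le_ofReal h4
  rw [ENNReal.ofReal_natCast] at h6
  simpa using h6

theorem one_lb {E : Set unitInterval} (hE : volume E ≠ 0) : 1 ≤ lbdim E := by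
  refine le_iInf₂ fun s hs => ?_
  by_contra hcon
  push Not at hcon
  have hs1 : (s : ℝ) < 1 := by exact_mod_cast hcon
  have hpos : 0 < (volume E).toReal := ENNReal.toReal_pos hE (measure_ne_top _ _)
  have hev : ∀ᶠ r : ℝ in 𝓝[>] 0, 2 * r ^ (1 - (s : ℝ)) < (volume E).toReal :=
    ((tend_pow (K := 2) (b := 1 - (s : ℝ)) (by norm_num) (by linarith)).mono_right
      nhdsWithin_le_nhds).eventually (gt_mem_nhds hpos)
  obtain ⟨r, ⟨h1, h2⟩, h3⟩ := ((hs.and_eventually hev).and_eventually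
    self_mem_nhdsWithin).exists
  have hr : 0 < r := h3
  obtain ⟨C, hC, h4⟩ := ex_cov E hr.le
  rw [h4] at h1
  have hfin : C.Finite := by
    by_contra hinf
    have : C.encard = ⊤ := by
      rw [Set.encard_eq_top_iff]
      exact hinf
    rw [this] at h1
    simp at h1
  have h5 : E ⊆ ⋃ c ∈ hfin.toFinset, Metric.closedBall c r := by
    intro x hx
    obtain ⟨c, hc, h6⟩ := hC x hx
    exact Set.mem_iUnion₂.2 ⟨c, hfin.mem_toFinset.2 hc, h6⟩
  have hball : ∀ c : unitInterval, volume (Metric.closedBall c r) ≤ ENNReal.ofReal (2 * r) := by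
    intro c
    rw [vol_I]
    have h6 : (fun w : unitInterval => (w : ℝ)) '' Metric.closedBall c r ⊆
        Set.Icc ((c : ℝ) - r) (c + r) := by
      rintro _ ⟨w, hw, rfl⟩
      rw [Metric.mem_closedBall, Subtype.dist_eq, Real.dist_eq, abs_le] at hw
      constructor <;> linarith [hw.1, hw.2]
    refine (measure_mono h6).trans ?_
    rw [Real.volume_Icc]
    apply ENNReal.ofReal_le_ofReal
    linarith
  have h6 := (measure_mono (μ := volume) h5).trans (measure_biUnion_finset_le _ _)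
  have h7 : ∑ c ∈ hfin.toFinset, volume (Metric.closedBall c r) ≤
      (hfin.toFinset.card : ℝ≥0∞) * ENNReal.ofReal (2 * r) := by
    refine (Finset.sum_le_sum fun c _ => hball c).trans ?_
    rw [Finset.sum_const, nsmul_eq_mul]
  rw [hfin.encard_eq_coe_toFinset_card] at h1
  have h8 : (hfin.toFinset.card : ℝ≥0∞) ≤ ENNReal.ofReal (r ^ (-(s : ℝ))) := by
    simpa using h1
  have h9 : volume E ≤ ENNReal.ofReal (r ^ (-(s : ℝ))) * ENNReal.ofReal (2 * r) :=
    h6.trans (h7.trans (by gcongr))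
  rw [← ENNReal.ofReal_mul (by positivity)] at h9
  have h10 := ENNReal.toReal_mono ENNReal.ofReal_ne_top h9
  rw [ENNReal.toReal_ofReal (by positivity)] at h10
  have e : r ^ (-(s : ℝ)) * (2 * r) = 2 * r ^ (1 - (s : ℝ)) := by
    have e1 : 1 - (s : ℝ) = -(s : ℝ) + 1 := by ring
    rw [e1, Real.rpow_add_one hr.ne']
    ring
  rw [e] at h10
  linarith

theorem dims_one {E : Set unitInterval} (hE : volume E ≠ 0) :
    ubdim E = 1 ∧ lbdim E = 1 ∧ pdim E = 1 := by
  have h1 := ub_one E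
  have h2 := one_lb hE
  have h3 : lbdim E ≤ ubdim E := ld_le_ud _
  refine ⟨le_antisymm h1 (h2.trans h3), le_antisymm (h3.trans h1) h2, le_antisymm ?_ ?_⟩
  · refine iInf₂_le_of_le (fun _ => E) ?_ ?_
    · exact fun x hx => Set.mem_iUnion.2 ⟨0, hx⟩
    · exact iSup_le fun _ => h1
  · refine le_iInf₂ fun B hB => ?_
    have h4 : ∃ i, volume (B i) ≠ 0 := by
      by_contra hcon
      push Not at hcon
      exact hE (measure_mono_null hB (measure_iUnion_null hcon))
    obtain ⟨i, hi⟩ := h4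
    exact (one_lb hi).trans ((ld_le_ud _).trans (le_iSup (fun i => ubdim (B i)) i))

/-- Images of sets of times of positive measure. -/
theorem dims_pos {f : C(unitInterval, ℂ)} (h : Reg f) {E : Set unitInterval} (hE : volume E ≠ 0) :
    ubdim (f '' E) = 7 / 4 ∧ lbdim (f '' E) = 7 / 4 ∧ pdim (f '' E) = 7 / 4 := by
  obtain ⟨h1, h2, h3⟩ := dims_one hE
  rw [ubdim_image h, lbdim_image h, pdim_image h, h1, h2, h3, mul_one]
  exact ⟨rfl, rfl, rfl⟩

end Pool.Agent.Q166.PD
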