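import Pool.Agent.Q166.PD.Core
import Pool.Agent.Q166.PT.Grid

/-!
Covering numbers of the images of sets of times.
-/

set_option autoImplicit false

open MeasureTheory Filter Topology
open scoped ENNReal NNReal

namespace Pool.Agent.Q166.PD

open Pool.Agent.Q166.PT

/-- the number of closed balls of radius `r` (with arbitrary centres) which are necessary to
cover `A` -/
noncomputable def cov {α : Type*} [PseudoEMetricSpace α] (A : Set α) (r : ℝ) : ℝ≥0∞ :=
  ((Metric.externalCoveringNumber r.toNNReal A : ℕ∞) : ℝ≥0∞)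

theorem cov_le_card {α : Type*} [PseudoMetricSpace α] {A : Set α} {r : ℝ}
    {C : Set α} (h : ∀ x ∈ A, ∃ c ∈ C, dist x c ≤ r) : cov A r ≤ (C.encard : ℝ≥0∞) := by
  unfold cov
  have h1 : Metric.IsCover r.toNNReal A C := by
    intro x hx
    obtain ⟨c, hc, h2⟩ := h x hx
    refine ⟨c, hc, ?_⟩
    change edist x c ≤ (r.toNNReal : ℝ≥0∞)
    rw [edist_dist]
    exact ENNReal.ofReal_le_ofReal h2
  exact_mod_cast h1.externalCoveringNumber_le_encard

theorem ex_cov {α : Type*} [PseudoMetricSpace α] (A : Set α) {r : ℝ} (hr : 0 ≤ r) :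
    ∃ C : Set α, (∀ x ∈ A, ∃ c ∈ C, dist x c ≤ r) ∧ cov A r = (C.encard : ℝ≥0∞) := by
  have : Nonempty {C : Set α // Metric.IsCover r.toNNReal A C} := ⟨⟨A, Metric.IsCover.rfl⟩⟩
  obtain ⟨⟨C, hC⟩, h2⟩ := ENat.exists_eq_iInf
    (fun C : {C : Set α // Metric.IsCover r.toNNReal A C} => C.1.encard)
  refine ⟨C, ?_, ?_⟩
  · intro y hy
    obtain ⟨c, hc, h3⟩ := hC hy
    refine ⟨c, hc, ?_⟩
    change edist y c ≤ (r.toNNReal : ℝ≥0∞) at h3
    rw [edist_dist] at h3
    exact (ENNReal.ofReal_le_ofReal_iff hr).1 h3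
  · unfold cov Metric.externalCoveringNumber
    rw [iInf_subtype] at h2
    simp only at h2
    rw [h2]

theorem cov_mono {α : Type*} [PseudoMetricSpace α] {A B : Set α} (h : A ⊆ B) (r : ℝ) :
    cov A r ≤ cov B r := by
  unfold cov
  exact_mod_cast Metric.externalCoveringNumber_mono_set h

/-- Hölder images -/
theorem cov_image {f : C(unitInterval, ℂ)} {K β : ℝ} (hK : 0 ≤ K) (hβ : 0 < β)
    (h : ∀ s t : unitInterval, dist (f s) (f t) ≤ K * |(s : ℝ) - t| ^ β)
    (E : Set unitInterval) {r : ℝ} (hr : 0 ≤ r) : cov (f '' E) (K * r ^ β) ≤ cov E r := by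
  obtain ⟨C, hC, h1⟩ := ex_cov E hr
  rw [h1]
  refine (cov_le_card (C := f '' C) ?_).trans ?_
  · rintro _ ⟨x, hx, rfl⟩
    obtain ⟨c, hc, h2⟩ := hC x hx
    refine ⟨f c, ⟨c, hc, rfl⟩, (h x c).trans ?_⟩
    refine mul_le_mul_of_nonneg_left ?_ hK
    exact Real.rpow_le_rpow (abs_nonneg _) h2 hβ.le
  · exact_mod_cast Set.encard_image_le f C

/-- Number of grid intervals in a set of times. -/
theorem grid_count {M : ℕ} (hM : 0 < M) {B : Finset ℕ} (hB : B ⊆ Finset.range M)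
    {U : Set unitInterval}
    (h : ∀ k ∈ B, Set.Ioo (gr 0 1 M k) (gr 0 1 M (k + 1)) ⊆ U) :
    ENNReal.ofReal ((B.card : ℝ) / M) ≤ volume U := by
  have h01 : (0 : unitInterval) ≤ 1 := zero_le_one
  have hM0 : (0 : ℝ) < M := by exact_mod_cast hM
  have hdis : (B : Set ℕ).PairwiseDisjoint
      (fun k => Set.Ioo (gr 0 1 M k) (gr 0 1 M (k + 1))) := by
    intro j hj k hk hjk
    have hj' : j < M := Finset.mem_range.1 (hB hj)
    have hk' : k < M := Finset.mem_range.1 (hB hk)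
    change Disjoint (Set.Ioo _ _) (Set.Ioo _ _)
    rw [Set.disjoint_left]
    rintro w ⟨w1, w2⟩ ⟨w3, w4⟩
    rcases lt_or_gt_of_ne hjk with h1 | h1
    · have h2 := gr_mono h01 (M := M) (show j + 1 ≤ k by omega) hk'.le hM
      exact absurd (w3.trans w2) (not_lt.2 h2)
    · have h2 := gr_mono h01 (M := M) (show k + 1 ≤ j by omega) hj'.le hM
      exact absurd (w1.trans w4) (not_lt.2 h2)
  have h1 : volume (⋃ k ∈ B, Set.Ioo (gr 0 1 M k) (gr 0 1 M (k + 1))) ≤ volume U :=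
    measure_mono (Set.iUnion₂_subset h)
  rw [measure_biUnion_finset hdis (fun k _ => measurableSet_Ioo)] at h1
  have h2 : ∑ k ∈ B, volume (Set.Ioo (gr 0 1 M k) (gr 0 1 M (k + 1))) =
      ENNReal.ofReal ((B.card : ℝ) / M) := by
    have h3 : ∀ k ∈ B, volume (Set.Ioo (gr 0 1 M k) (gr 0 1 M (k + 1))) =
        ENNReal.ofReal (1 / M) := by
      intro k hk
      rw [unitInterval.volume_Ioo, gr_step h01 (Finset.mem_range.1 (hB hk))]
      simp
    rw [Finset.sum_congr rfl h3, Finset.sum_const, nsmul_eq_mul]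
    rw [div_eq_mul_one_div (B.card : ℝ), ENNReal.ofReal_mul (Nat.cast_nonneg _),
      ENNReal.ofReal_natCast]
  rwa [h2] at h1

/-- Times near a point: they are covered by few intervals. -/
theorem few_times {f : C(unitInterval, ℂ)} {K β α Λ : ℝ} (hK : 0 < K) (hβ : 0 < β)
    (h : ∀ s t : unitInterval, dist (f s) (f t) ≤ K * |(s : ℝ) - t| ^ β)
    (hΛ : 0 < Λ)
    (ho : ∀ (z : ℂ) (r : ℝ), 0 < r →
      volume {s : unitInterval | dist (f s) z < r} ≤ ENNReal.ofReal (Λ * r ^ α))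
    (z : ℂ) {r : ℝ} (hr : 0 < r) (hr1 : r ≤ 1) :
    ∃ T : Finset unitInterval, (∀ s : unitInterval, dist (f s) z ≤ r →
      ∃ t ∈ T, dist s t ≤ r ^ (1 / β)) ∧
      (T.card : ℝ) ≤ 2 * Λ * (K + 2) ^ α * r ^ (α - 1 / β) := by
  classical
  have h01 : (0 : unitInterval) ≤ 1 := zero_le_one
  obtain ⟨h', hh'⟩ : ∃ h' : ℝ, h' = r ^ (1 / β) := ⟨_, rfl⟩
  have hp : 0 < h' := by rw [hh']; positivity
  have hp1 : h' ≤ 1 := by rw [hh']; exact Real.rpow_le_one hr.le hr1 (by positivity)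
  have hpb : h' ^ β = r := by
    rw [hh', ← Real.rpow_mul hr.le, one_div_mul_cancel hβ.ne', Real.rpow_one]
  obtain ⟨M, hMd⟩ : ∃ M : ℕ, M = ⌈1 / h'⌉₊ := ⟨_, rfl⟩
  have hM1 : 1 / h' ≤ M := by rw [hMd]; exact Nat.le_ceil _
  have hM2 : (M : ℝ) < 1 / h' + 1 := by
    rw [hMd]
    exact Nat.ceil_lt_add_one (by positivity)
  have hM0 : (0 : ℝ) < M := lt_of_lt_of_le (by positivity) hM1
  have hM : 0 < M := by exact_mod_cast hM0
  have hMh : 1 / (M : ℝ) ≤ h' := by
    rw [div_le_iff₀ hM0]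
    rw [div_le_iff₀ hp] at hM1
    linarith
  have hM3 : (M : ℝ) ≤ 2 / h' := by
    have : 1 ≤ 1 / h' := by rw [le_div_iff₀ hp]; linarith
    have e : 2 / h' = 1 / h' + 1 / h' := by ring
    linarith
  obtain ⟨B, hB⟩ : ∃ B : Finset ℕ, B = (Finset.range M).filter (fun k =>
    ∃ s ∈ Set.Icc (gr 0 1 M k) (gr 0 1 M (k + 1)), dist (f s) z ≤ r) := ⟨_, rfl⟩
  have hBr : B ⊆ Finset.range M := by rw [hB]; exact Finset.filter_subset _ _
  have hstep : ∀ k < M, (gr 0 1 M (k + 1) : ℝ) - gr 0 1 M k = 1 / M := by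
    intro k hk
    rw [gr_step h01 hk]
    simp
  refine ⟨B.image (fun k => gr 0 1 M k), ?_, ?_⟩
  · intro s hs
    have h1 := gr_cover h01 hM (show s ∈ Set.Icc (0 : unitInterval) 1 from
      ⟨unitInterval.nonneg', unitInterval.le_one'⟩)
    simp only [Set.mem_iUnion] at h1
    obtain ⟨k, hk, hks⟩ := h1
    have hkB : k ∈ B := by
      rw [hB, Finset.mem_filter]
      exact ⟨hk, s, hks, hs⟩
    refine ⟨gr 0 1 M k, Finset.mem_image_of_mem _ hkB, ?_⟩
    rw [← hh', Subtype.dist_eq, Real.dist_eq, abs_le]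
    have g1 := hstep k (Finset.mem_range.1 hk)
    have g2 : (gr 0 1 M k : ℝ) ≤ s := hks.1
    have g3 : (s : ℝ) ≤ gr 0 1 M (k + 1) := hks.2
    constructor <;> linarith
  · have hcnt := grid_count hM hBr (U := {s : unitInterval | dist (f s) z < (K + 2) * r}) (by
      intro k hk t ht
      rw [hB, Finset.mem_filter, Finset.mem_range] at hk
      obtain ⟨hkM, s, hs1, hs2⟩ := hk
      have g1 := hstep k hkM
      have g2 : (gr 0 1 M k : ℝ) ≤ s := hs1.1
      have g3 : (s : ℝ) ≤ gr 0 1 M (k + 1) := hs1.2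
      have g4 : (gr 0 1 M k : ℝ) < t := ht.1
      have g5 : (t : ℝ) < gr 0 1 M (k + 1) := ht.2
      have g6 : |(t : ℝ) - s| ≤ h' := by
        rw [abs_le]
        constructor <;> linarith
      have g7 : |(t : ℝ) - s| ^ β ≤ r := by
        rw [← hpb]
        exact Real.rpow_le_rpow (abs_nonneg _) g6 hβ.le
      change dist (f t) z < (K + 2) * r
      calc dist (f t) z ≤ dist (f t) (f s) + dist (f s) z := dist_triangle _ _ _
        _ ≤ K * |(t : ℝ) - s| ^ β + r := add_le_add (h t s) hs2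
        _ ≤ K * r + r := by gcongr
        _ < (K + 2) * r := by linarith)
    have h2 := hcnt.trans (ho z ((K + 2) * r) (by positivity))
    rw [ENNReal.ofReal_le_ofReal_iff (by positivity), div_le_iff₀ hM0] at h2
    have h3 : ((B.image (fun k => gr 0 1 M k)).card : ℝ) ≤ B.card := by
      exact_mod_cast Finset.card_image_le
    refine h3.trans (h2.trans ?_)
    calc Λ * ((K + 2) * r) ^ α * M ≤ Λ * ((K + 2) * r) ^ α * (2 / h') := by gcongr
      _ = 2 * Λ * (K + 2) ^ α * r ^ (α - 1 / β) := by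
        rw [Real.mul_rpow (by positivity) hr.le, Real.rpow_sub hr, ← hh']
        ring

/-- Covering numbers of a set of times, in terms of those of the image. -/
theorem cov_times {f : C(unitInterval, ℂ)} {K β α Λ : ℝ} (hK : 0 < K) (hβ : 0 < β)
    (h : ∀ s t : unitInterval, dist (f s) (f t) ≤ K * |(s : ℝ) - t| ^ β)
    (hΛ : 0 < Λ)
    (ho : ∀ (z : ℂ) (r : ℝ), 0 < r →
      volume {s : unitInterval | dist (f s) z < r} ≤ ENNReal.ofReal (Λ * r ^ α))
    (E : Set unitInterval) {r : ℝ} (hr : 0 < r) (hr1 : r ≤ 1) :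
    cov E (r ^ (1 / β)) ≤
      ENNReal.ofReal (2 * Λ * (K + 2) ^ α * r ^ (α - 1 / β)) * cov (f '' E) r := by
  classical
  obtain ⟨C, hC, h1⟩ := ex_cov (f '' E) hr.le
  rw [h1]
  have hpos : 0 < 2 * Λ * (K + 2) ^ α * r ^ (α - 1 / β) := by positivity
  by_cases hfin : C.Finite
  · have hch := fun z : ℂ => few_times hK hβ h hΛ ho z hr hr1
    choose T hT1 hT2 using hch
    have hcov := cov_le_card (A := E) (r := r ^ (1 / β))
      (C := (hfin.toFinset.biUnion T : Set unitInterval)) (by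
        intro s hs
        obtain ⟨c, hc, h2⟩ := hC (f s) ⟨s, hs, rfl⟩
        obtain ⟨t, ht, h3⟩ := hT1 c s h2
        refine ⟨t, ?_, h3⟩
        rw [Finset.mem_coe, Finset.mem_biUnion]
        exact ⟨c, hfin.mem_toFinset.2 hc, ht⟩)
    refine hcov.trans ?_
    rw [Set.encard_coe_eq_coe_finsetCard, hfin.encard_eq_coe_toFinset_card]
    have h2 : ((hfin.toFinset.biUnion T).card : ℝ) ≤
        2 * Λ * (K + 2) ^ α * r ^ (α - 1 / β) * hfin.toFinset.card := by
      have h3 : ((hfin.toFinset.biUnion T).card : ℝ) ≤ ∑ z ∈ hfin.toFinset, ((T z).card : ℝ) := by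
        exact_mod_cast Finset.card_biUnion_le
      refine h3.trans ((Finset.sum_le_sum fun z _ => hT2 z).trans ?_)
      rw [Finset.sum_const, nsmul_eq_mul, mul_comm]
    have h4 := ENNReal.ofReal_le_ofReal h2
    rw [ENNReal.ofReal_mul hpos.le, ENNReal.ofReal_natCast, ENNReal.ofReal_natCast] at h4
    simpa using h4
  · have : C.encard = ⊤ := by
      rw [Set.encard_eq_top_iff]
      exact hfin
    rw [this]
    simp only [ENat.toENNReal_top]
    rw [ENNReal.mul_top]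
    · exact le_top
    · rw [Ne, ENNReal.ofReal_eq_zero]
      linarith

/-- upper box dimension -/
noncomputable def ubdim {α : Type*} [PseudoEMetricSpace α] (A : Set α) : ℝ≥0∞ := ud (cov A)

/-- lower box dimension -/
noncomputable def lbdim {α : Type*} [PseudoEMetricSpace α] (A : Set α) : ℝ≥0∞ := ld (cov A)

/-- packing dimension -/
noncomputable def pdim {α : Type*} [PseudoEMetricSpace α] (A : Set α) : ℝ≥0∞ :=
  ⨅ (B : ℕ → Set α) (_ : A ⊆ ⋃ i, B i), ⨆ i, ubdim (B i)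

theorem ud_mono {N1 N2 : ℝ → ℝ≥0∞} (h : ∀ r, N1 r ≤ N2 r) : ud N1 ≤ ud N2 := by
  refine le_iInf₂ fun s hs => iInf₂_le s ?_
  filter_upwards [hs] with r hr using (h r).trans hr

/-- Hölder continuity of all orders less than `4/7`, occupation of all orders less than `7/4` -/
def Reg (f : C(unitInterval, ℂ)) : Prop :=
  (∀ β : ℝ, 0 < β → β < 4/7 → ∃ Λ : ℝ, ∀ s t : unitInterval,
    dist (f s) (f t) ≤ Λ * |(s : ℝ) - t| ^ β) ∧
  ∀ α : ℝ, 0 < α → α < 7/4 → ∃ Λ : ℝ, 0 < Λ ∧ ∀ (z : ℂ) (r : ℝ), 0 < r →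
    volume {s : unitInterval | dist (f s) z < r} ≤ ENNReal.ofReal (Λ * r ^ α)

theorem Reg.hol {f : C(unitInterval, ℂ)} (h : Reg f) {β : ℝ} (h1 : 0 < β) (h2 : β < 4/7) :
    ∃ K : ℝ, 0 < K ∧ ∀ s t : unitInterval, dist (f s) (f t) ≤ K * |(s : ℝ) - t| ^ β := by
  obtain ⟨Λ, hΛ⟩ := h.1 β h1 h2
  refine ⟨max Λ 1, lt_max_of_lt_right one_pos, fun s t => (hΛ s t).trans ?_⟩
  exact mul_le_mul_of_nonneg_right (le_max_left _ _) (by positivity)

theorem cmp_image {f : C(unitInterval, ℂ)} (h : Reg f) (E : Set unitInterval) :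
    Cmp (cov (f '' E)) (cov E) (7/4) := by
  intro c η hc hη
  have hc0 : 0 < c := by linarith
  have hβ : 1 / c < 4 / 7 := by
    rw [div_lt_iff₀ hc0]
    linarith
  obtain ⟨K, hK, hh⟩ := h.hol (β := 1 / c) (by positivity) hβ
  refine ⟨K, 1 / c, 1, 0, hK, by positivity, one_pos, le_rfl, ?_, ?_, ?_⟩
  · rw [one_div_one_div]
  · rw [zero_div]
    exact hη.le
  · filter_upwards [self_mem_nhdsWithin] with r hr
    have hr0 : 0 < r := hr
    rw [neg_zero, Real.rpow_zero, mul_one, ENNReal.ofReal_one, one_mul]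
    exact cov_image hK.le (by positivity) hh E hr0.le

theorem cmp_times {f : C(unitInterval, ℂ)} (h : Reg f) (E : Set unitInterval) :
    Cmp (cov E) (cov (f '' E)) (4/7) := by
  intro c η hc hη
  obtain ⟨ε, hε⟩ : ∃ ε : ℝ, ε = min (1/2) (η/2) := ⟨_, rfl⟩
  have e0 : 0 < ε := by rw [hε]; exact lt_min (by norm_num) (by linarith)
  have e1 : ε ≤ 1/2 := by rw [hε]; exact min_le_left _ _
  have e2 : ε ≤ η/2 := by rw [hε]; exact min_le_right _ _
  obtain ⟨β, hβ⟩ : ∃ β : ℝ, β = 4/7 * (1 - ε) := ⟨_, rfl⟩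
  obtain ⟨α, hα⟩ : ∃ α : ℝ, α = 7/4 * (1 - ε) := ⟨_, rfl⟩
  have b0 : 0 < β := by rw [hβ]; linarith
  have b1 : β < 4/7 := by rw [hβ]; linarith
  have a0 : 0 < α := by rw [hα]; linarith
  have a1 : α < 7/4 := by rw [hα]; linarith
  have hab : α ≤ 1 / β := by
    rw [le_div_iff₀ b0]
    nlinarith
  obtain ⟨K, hK, hh⟩ := h.hol b0 b1
  obtain ⟨Λ, hΛ, ho⟩ := h.2 α a0 a1
  refine ⟨1, 1 / β, 2 * Λ * (K + 2) ^ α, 1 / β - α, one_pos, by positivity, by positivity,
    by linarith, ?_, ?_, ?_⟩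
  · rw [one_div_one_div]
    linarith
  · rw [div_div_eq_mul_div, div_one, sub_mul, one_div_mul_cancel b0.ne', hα, hβ]
    nlinarith
  · filter_upwards [Ioo_mem_nhdsGT (zero_lt_one' ℝ)] with r hr
    have e3 : -(1 / β - α) = α - 1 / β := by ring
    rw [one_mul, e3]
    exact cov_times hK b0 hh hΛ ho E hr.1 hr.2.le

theorem e74 : (7 / 4 : ℝ≥0∞) = ENNReal.ofReal (7/4) := by
  rw [ENNReal.ofReal_div_of_pos (by norm_num)]
  norm_num

theorem e47 : (4 / 7 : ℝ≥0∞) = ENNReal.ofReal (4/7) := by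
  rw [ENNReal.ofReal_div_of_pos (by norm_num)]
  norm_num

theorem eq_of {x y : ℝ≥0∞} (h1 : x ≤ ENNReal.ofReal (7/4) * y)
    (h2 : y ≤ ENNReal.ofReal (4/7) * x) : x = 7 / 4 * y := by
  rw [e74]
  refine le_antisymm h1 ?_
  calc ENNReal.ofReal (7/4) * y ≤ ENNReal.ofReal (7/4) * (ENNReal.ofReal (4/7) * x) := by gcongr
    _ = x := by
      rw [← mul_assoc, ← ENNReal.ofReal_mul (by norm_num)]
      norm_num

theorem ubdim_image {f : C(unitInterval, ℂ)} (h : Reg f) (E : Set unitInterval) :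
    ubdim (f '' E) = 7 / 4 * ubdim E :=
  eq_of (ud_le (by norm_num) (cmp_image h E)) (ud_le (by norm_num) (cmp_times h E))

theorem lbdim_image {f : C(unitInterval, ℂ)} (h : Reg f) (E : Set unitInterval) :
    lbdim (f '' E) = 7 / 4 * lbdim E :=
  eq_of (ld_le (by norm_num) (cmp_image h E)) (ld_le (by norm_num) (cmp_times h E))

theorem ubdim_mono {α : Type*} [PseudoMetricSpace α] {A B : Set α} (h : A ⊆ B) :
    ubdim A ≤ ubdim B := ud_mono fun r => cov_mono h r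

theorem pdim_image {f : C(unitInterval, ℂ)} (h : Reg f) (E : Set unitInterval) :
    pdim (f '' E) = 7 / 4 * pdim E := by
  have h7 : (7 / 4 : ℝ≥0∞) ≠ 0 := by rw [e74]; simp
  have h7t : (7 / 4 : ℝ≥0∞) ≠ ⊤ := by rw [e74]; exact ENNReal.ofReal_ne_top
  apply le_antisymm
  · unfold pdim
    rw [ENNReal.mul_iInf_of_ne h7 h7t]
    refine le_iInf fun B => ?_
    rw [ENNReal.mul_iInf_of_ne h7 h7t]
    refine le_iInf fun hB => ?_
    refine iInf₂_le_of_le (fun i => f '' B i) ?_ ?_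
    · rw [← Set.image_iUnion]
      exact Set.image_mono hB
    · rw [ENNReal.mul_iSup]
      exact iSup_mono fun i => (ubdim_image h (B i)).le
  · have h2 : ∀ D : ℕ → Set ℂ, f '' E ⊆ ⋃ i, D i → 7 / 4 * pdim E ≤ ⨆ i, ubdim (D i) := by
      intro D hD
      have h3 : pdim E ≤ ⨆ i, ubdim (f ⁻¹' D i) := by
        refine iInf₂_le (fun i => f ⁻¹' D i) ?_
        intro s hs
        have := hD ⟨s, hs, rfl⟩
        rw [Set.mem_iUnion] at this ⊢
        exact this
      calc 7 / 4 * pdim E ≤ 7 / 4 * ⨆ i, ubdim (f ⁻¹' D i) := by gcongr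
        _ = ⨆ i, 7 / 4 * ubdim (f ⁻¹' D i) := ENNReal.mul_iSup _ _
        _ ≤ ⨆ i, ubdim (D i) := by
          refine iSup_mono fun i => ?_
          rw [← ubdim_image h]
          exact ubdim_mono (Set.image_preimage_subset _ _)
    exact le_iInf₂ h2

end Pool.Agent.Q166.PD
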