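import Pool.Agent.Q166.PT.Mink
import Pool.Agent.Q166.PD.Img

/-!
The normalised area of the neighbourhoods of a curve in open and closed sets.
-/

set_option autoImplicit false

open MeasureTheory Filter Topology
open scoped ENNReal NNReal

namespace Pool.Agent.Q166.PD

open Pool.Agent.Q166.PT

theorem nice_sub {f : C(unitInterval, ℂ)} {c C T : ℝ} (h : Nice f c C T 0 1)
    (x y : unitInterval) : Nice f c C T x y := by
  unfold Nice at h ⊢
  filter_upwards [h] with ρ hρ s t _ h2 _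
  exact hρ s t unitInterval.nonneg' h2 unitInterval.le_one'

/-- Grid intervals around a compact subset of an open set of times. -/
theorem grid_in {K O : Set unitInterval} (hK : IsCompact K) (hO : IsOpen O) (hKO : K ⊆ O) :
    ∃ (M : ℕ) (I : Finset ℕ), 0 < M ∧ I ⊆ Finset.range M ∧
      (∀ k ∈ I, Set.Icc (gr 0 1 M k) (gr 0 1 M (k + 1)) ⊆ O) ∧
      K ⊆ ⋃ k ∈ I, Set.Icc (gr 0 1 M k) (gr 0 1 M (k + 1)) := by
  classical
  have h01 : (0 : unitInterval) ≤ 1 := zero_le_one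
  obtain ⟨δ, hδ, hδU⟩ := hK.exists_thickening_subset_open hO hKO
  obtain ⟨M, hM⟩ := exists_nat_gt (1 / δ)
  have hM0 : (0 : ℝ) < M := lt_of_le_of_lt (by positivity) hM
  have hMpos : 0 < M := by exact_mod_cast hM0
  have hmesh : 1 / (M : ℝ) < δ := by
    rw [div_lt_iff₀ hM0]
    rw [div_lt_iff₀ hδ] at hM
    linarith
  refine ⟨M, (Finset.range M).filter (fun k =>
    (Set.Icc (gr 0 1 M k) (gr 0 1 M (k + 1)) ∩ K).Nonempty), hMpos, Finset.filter_subset _ _,
    ?_, ?_⟩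
  · intro k hk w hw
    rw [Finset.mem_filter, Finset.mem_range] at hk
    obtain ⟨hkM, e, he1, he2⟩ := hk
    apply hδU
    rw [Metric.mem_thickening_iff]
    refine ⟨e, he2, ?_⟩
    have g1 : (gr 0 1 M (k + 1) : ℝ) - gr 0 1 M k = 1 / M := by
      rw [gr_step h01 hkM]
      simp
    have a1 : (gr 0 1 M k : ℝ) ≤ e := he1.1
    have a2 : (e : ℝ) ≤ gr 0 1 M (k + 1) := he1.2
    have a3 : (gr 0 1 M k : ℝ) ≤ w := hw.1
    have a4 : (w : ℝ) ≤ gr 0 1 M (k + 1) := hw.2
    rw [Subtype.dist_eq, Real.dist_eq, abs_lt]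
    constructor <;> linarith
  · intro w hw
    have h1 := gr_cover h01 hMpos (show w ∈ Set.Icc (0 : unitInterval) 1 from
      ⟨unitInterval.nonneg', unitInterval.le_one'⟩)
    simp only [Set.mem_iUnion] at h1
    obtain ⟨k, hk, hw'⟩ := h1
    refine Set.mem_iUnion₂.2 ⟨k, ?_, hw'⟩
    rw [Finset.mem_filter]
    exact ⟨hk, w, hw', hw⟩

/-- Lower bound in an open set. -/
theorem low_open {f : C(unitInterval, ℂ)} {c C T : ℝ} (hc : 0 < c) (hC : 0 < C) (hT : 0 < T)
    (hN : Nice f c C T 0 1) (hD : volume (Db f) = 0) {U : Set ℂ} (hU : IsOpen U) :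
    ENNReal.ofReal (c / 2 * T) * volume (f ⁻¹' U) ≤
      liminf (fun ρ : ℝ => volume (U ∩ Metric.thickening ρ (Set.range f)) /
        ENNReal.ofReal (ρ ^ (1/4 : ℝ))) (𝓝[>] 0) := by
  have h01 : (0 : unitInterval) ≤ 1 := zero_le_one
  have hO : IsOpen (f ⁻¹' U) := hU.preimage f.continuous
  refine ENNReal.le_of_forall_nnreal_lt ?_
  intro x hx
  -- a compact set
  obtain ⟨a, ha1, ha2⟩ : ∃ a : ℝ≥0∞, a < volume (f ⁻¹' U) ∧
      (x : ℝ≥0∞) ≤ ENNReal.ofReal (c / 2 * T) * a := by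
    have hcT : ENNReal.ofReal (c / 2 * T) ≠ 0 := by
      rw [Ne, ENNReal.ofReal_eq_zero, not_le]
      positivity
    refine ⟨x / ENNReal.ofReal (c / 2 * T), ?_, ?_⟩
    · rw [ENNReal.div_lt_iff (Or.inl hcT) (Or.inl ENNReal.ofReal_ne_top), mul_comm]
      exact hx
    · rw [ENNReal.mul_div_cancel hcT ENNReal.ofReal_ne_top]
  obtain ⟨K, hKU, hK, hKv⟩ := hO.exists_lt_isCompact (μ := volume) ha1
  obtain ⟨M, I, hM, hIM, hI1, hI2⟩ := grid_in hK hO hKU
  have hM0 : (0 : ℝ) < M := by exact_mod_cast hM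
  have hIr : ∀ k ∈ I, k < M := fun k hk => Finset.mem_range.1 (hIM hk)
  have hlow := union_low (ι := ℕ) hc hC hT hD I (fun k => gr 0 1 M k) (fun k => gr 0 1 M (k + 1))
    (fun k hk => by
      have h1 : (gr 0 1 M (k + 1) : ℝ) - gr 0 1 M k = 1 / M := by
        rw [gr_step h01 (hIr k hk)]
        simp
      have h2 : 0 < 1 / (M : ℝ) := by positivity
      change (gr 0 1 M k : ℝ) < gr 0 1 M (k + 1)
      linarith)
    (fun k _ => nice_sub hN _ _)
    (fun j hj k hk hjk => by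
      rcases lt_or_gt_of_ne hjk with h1 | h1
      · exact Or.inl (gr_mono h01 (by omega) (hIr k hk).le hM)
      · exact Or.inr (gr_mono h01 (by omega) (hIr j hj).le hM))
  -- the neighbourhood of the image is in `U`
  obtain ⟨A, hA⟩ : ∃ A : Set unitInterval,
    A = ⋃ k ∈ I, Set.Icc (gr 0 1 M k) (gr 0 1 M (k + 1)) := ⟨_, rfl⟩
  have hAc : IsCompact A := by
    rw [hA]
    exact I.isCompact_biUnion fun k _ => isCompact_Icc
  have hAO : A ⊆ f ⁻¹' U := by
    rw [hA]
    exact Set.iUnion₂_subset hI1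
  obtain ⟨δ, hδ, hδU⟩ := (hAc.image f.continuous).exists_thickening_subset_open hU
    (Set.image_subset_iff.2 hAO)
  have hsum : volume K ≤ ENNReal.ofReal (∑ k ∈ I, ((gr 0 1 M (k + 1) : ℝ) - gr 0 1 M k)) := by
    refine (measure_mono hI2).trans ((measure_biUnion_finset_le _ _).trans ?_)
    rw [ENNReal.ofReal_sum_of_nonneg]
    · exact Finset.sum_le_sum fun k _ => (unitInterval.volume_Icc _ _).le
    · intro k hk
      rw [gr_step h01 (hIr k hk)]
      simp
  refine le_trans (ha2.trans (mul_le_mul_right (hKv.le.trans hsum) _)) ?_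
  rw [← ENNReal.ofReal_mul (by positivity)]
  refine le_liminf_of_le (by isBoundedDefault) ?_
  filter_upwards [hlow, Ioo_mem_nhdsGT hδ] with ρ h1 h2
  have hρ : 0 < ρ := h2.1
  have h4 : 0 < ρ ^ (1/4 : ℝ) := Real.rpow_pos_of_pos hρ _
  rw [ENNReal.le_div_iff_mul_le (Or.inl (by
      rw [Ne, ENNReal.ofReal_eq_zero, not_le]
      exact h4)) (Or.inl ENNReal.ofReal_ne_top), ← ENNReal.ofReal_mul (by
      have : 0 ≤ ∑ k ∈ I, ((gr 0 1 M (k + 1) : ℝ) - gr 0 1 M k) := by
        refine Finset.sum_nonneg fun k hk => ?_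
        rw [gr_step h01 (hIr k hk)]
        simp
      positivity)]
  have h5 : ENNReal.ofReal (V f ρ A) = volume (Metric.thickening ρ (f '' A)) :=
    ENNReal.ofReal_toReal (V_fin f ρ A)
  have h6 : volume (Metric.thickening ρ (f '' A)) ≤
      volume (U ∩ Metric.thickening ρ (Set.range f)) := by
    refine measure_mono (Set.subset_inter ?_ ?_)
    · exact (Metric.thickening_mono h2.2.le _).trans hδU
    · exact Metric.thickening_subset_of_subset _ (Set.image_subset_range _ _)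
  refine le_trans ?_ (h5.le.trans h6)
  apply ENNReal.ofReal_le_ofReal
  rw [hA]
  refine le_trans (le_of_eq ?_) h1
  ring

/-- Upper bound in a closed set. -/
theorem up_closed {f : C(unitInterval, ℂ)} {c C T : ℝ} (hC : 0 < C) (hT : 0 < T)
    (hN : Nice f c C T 0 1) {K : Set ℂ} (hK : IsClosed K) :
    limsup (fun ρ : ℝ => volume (K ∩ Metric.thickening ρ (Set.range f)) /
        ENNReal.ofReal (ρ ^ (1/4 : ℝ))) (𝓝[>] 0) ≤ ENNReal.ofReal (C * T) * volume (f ⁻¹' K) := by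
  have h01 : (0 : unitInterval) ≤ 1 := zero_le_one
  refine le_of_forall_gt_imp_ge_of_dense fun x hx => ?_
  obtain ⟨b, hb1, hb2⟩ : ∃ b : ℝ≥0∞, volume (f ⁻¹' K) < b ∧
      ENNReal.ofReal (C * T) * b ≤ x := by
    have hcT : ENNReal.ofReal (C * T) ≠ 0 := by
      rw [Ne, ENNReal.ofReal_eq_zero, not_le]
      positivity
    refine ⟨x / ENNReal.ofReal (C * T), ?_, ?_⟩
    · rw [ENNReal.lt_div_iff_mul_lt (Or.inl hcT) (Or.inl ENNReal.ofReal_ne_top), mul_comm]
      exact hx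
    · rw [ENNReal.mul_div_cancel hcT ENNReal.ofReal_ne_top]
  obtain ⟨O, hO1, hO2, hO3⟩ := Set.exists_isOpen_lt_of_lt (μ := (volume : Measure unitInterval))
    (f ⁻¹' K) b hb1
  -- a neighbourhood of `K`
  have hdis : Disjoint (f '' Oᶜ) K := by
    rw [Set.disjoint_left]
    rintro _ ⟨t, ht, rfl⟩ htK
    exact ht (hO1 htK)
  obtain ⟨δ, hδ, hδd⟩ := hdis.exists_thickenings
    ((hO2.isClosed_compl.isCompact).image f.continuous) hK
  obtain ⟨F, hF⟩ : ∃ F : Set unitInterval, F = f ⁻¹' Metric.cthickening (δ / 2) K := ⟨_, rfl⟩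
  have hFc : IsCompact F := by
    rw [hF]
    exact (Metric.isClosed_cthickening.preimage f.continuous).isCompact
  have hFO : F ⊆ O := by
    intro t ht
    by_contra htO
    rw [hF] at ht
    refine (Set.disjoint_left.1 hδd) (Metric.self_subset_thickening hδ _ ⟨t, htO, rfl⟩) ?_
    exact Metric.cthickening_subset_thickening' hδ (by linarith) K ht
  obtain ⟨M, I, hM, hIM, hI1, hI2⟩ := grid_in hFc hO2 hFO
  have hM0 : (0 : ℝ) < M := by exact_mod_cast hM
  have hIr : ∀ k ∈ I, k < M := fun k hk => Finset.mem_range.1 (hIM hk)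
  have hcnt := grid_count hM hIM (U := O) (fun k hk => Set.Ioo_subset_Icc_self.trans (hI1 k hk))
  refine le_trans ?_ hb2
  refine le_trans ?_ (mul_le_mul_right (hcnt.trans hO3.le) _)
  rw [← ENNReal.ofReal_mul (by positivity)]
  refine limsup_le_of_le (by isBoundedDefault) ?_
  have hTM : 0 < T * (1 / M) := by positivity
  filter_upwards [hN, thr (C := C) hTM, Ioo_mem_nhdsGT (show 0 < δ / 2 by linarith)]
    with ρ h1 h2 h3
  have hρ : 0 < ρ := h3.1
  have h4 : 0 < ρ ^ (1/4 : ℝ) := Real.rpow_pos_of_pos hρ _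
  rw [ENNReal.div_le_iff (by
      rw [Ne, ENNReal.ofReal_eq_zero, not_le]
      exact h4) ENNReal.ofReal_ne_top, ← ENNReal.ofReal_mul (by positivity)]
  obtain ⟨A, hA⟩ : ∃ A : Set unitInterval,
    A = ⋃ k ∈ I, Set.Icc (gr 0 1 M k) (gr 0 1 M (k + 1)) := ⟨_, rfl⟩
  have h5 : K ∩ Metric.thickening ρ (Set.range f) ⊆ Metric.thickening ρ (f '' A) := by
    rintro z ⟨hz1, hz2⟩
    rw [Metric.mem_thickening_iff] at hz2 ⊢
    obtain ⟨_, ⟨t, rfl⟩, ht⟩ := hz2
    refine ⟨f t, ⟨t, ?_, rfl⟩, ht⟩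
    rw [hA]
    apply hI2
    rw [hF]
    refine Metric.mem_cthickening_of_dist_le (f t) z (δ / 2) K hz1 ?_
    rw [dist_comm]
    exact (ht.trans h3.2).le
  refine (measure_mono h5).trans ?_
  have h6 : ENNReal.ofReal (V f ρ A) = volume (Metric.thickening ρ (f '' A)) :=
    ENNReal.ofReal_toReal (V_fin f ρ A)
  rw [← h6]
  apply ENNReal.ofReal_le_ofReal
  rw [hA]
  refine (V_biUnion f ρ _ _).trans ?_
  have h7 : ∀ k ∈ I, V f ρ (Set.Icc (gr 0 1 M k) (gr 0 1 M (k + 1))) ≤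
      C * (T * (1 / M)) * ρ ^ (1/4 : ℝ) := by
    intro k hk
    have e : (gr 0 1 M (k + 1) : ℝ) - gr 0 1 M k = 1 / M := by
      rw [gr_step h01 (hIr k hk)]
      simp
    have := (h1 _ _ unitInterval.nonneg' (gr_mono h01 (Nat.le_succ k) (hIr k hk) hM)
      unitInterval.le_one' (by rw [e]; exact h2.le)).2
    rwa [e] at this
  refine (Finset.sum_le_sum h7).trans ?_
  rw [Finset.sum_const, nsmul_eq_mul]
  refine le_of_eq ?_
  ring

theorem null_of_dim {E : Set unitInterval} (h : dimH E < 1) : volume E = 0 := by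
  rw [vol_I]
  rw [← Pool.Agent.Y977.LGF.dim_val] at h
  rw [← hausdorffMeasure_real]
  have h2 : dimH ((fun w : unitInterval => (w : ℝ)) '' E) < ((1 : NNReal) : ℝ≥0∞) := by
    simpa using h
  have h3 := hausdorffMeasure_of_dimH_lt h2
  simpa using h3

theorem lt_one : (3 / 7 : ℝ≥0∞) < 1 := by
  have e37 : (3 / 7 : ℝ≥0∞) = ENNReal.ofReal (3/7) := by
    rw [ENNReal.ofReal_div_of_pos (by norm_num)]
    norm_num
  rw [e37, ← ENNReal.ofReal_one]
  exact (ENNReal.ofReal_lt_ofReal_iff (by norm_num)).2 (by norm_num)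

end Pool.Agent.Q166.PD
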